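import Pool.Agent.Helper66.GP.Defs
import Pool.Agent.Helper83.SC.F2

/-! # FN, COL: finite partial functions and the Levy collapse -/

universe u

namespace Pool.Agent.Helper22.GP

open ZFSet Pool.Agent.Helper66.SC Pool.Agent.Helper22.SC Pool.Agent.Helper66.GP

variable {M A : Set ZFSet.{u}}

/-- Finite sets of elements of `M` are elements of `M`. -/
theorem fin_mem (hM : IsZF M A) {x : ZFSet.{u}} (hx : ∀ y ∈ x, y ∈ M)
    (hf : {y | y ∈ x}.Finite) : x ∈ M := by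
  have key : ∀ s : Finset ZFSet.{u}, (∀ y ∈ s, y ∈ M) → ∃ z ∈ M, ∀ y, y ∈ z ↔ y ∈ s := by
    classical
    intro s
    induction s using Finset.induction_on with
    | empty =>
      intro _
      exact ⟨∅, hM.empty_mem, fun y => by simp⟩
    | insert a s ha ih =>
      intro h
      obtain ⟨z, hz, hz'⟩ := ih (fun y hy => h y (Finset.mem_insert_of_mem hy))
      refine ⟨insert a z, hM.insert_mem (h a (Finset.mem_insert_self a s)) hz, fun y => ?_⟩
      rw [ZFSet.mem_insert_iff, hz', Finset.mem_insert]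
  obtain ⟨z, hz, hz'⟩ := key hf.toFinset (fun y hy => hx y (by simpa using hy))
  have : z = x := by
    ext y
    rw [hz']
    simp
  rwa [← this]

theorem finite_nat (n : ℕ) : {y | y ∈ (SC.nat n : ZFSet.{u})}.Finite := by
  have : {y | y ∈ (SC.nat n : ZFSet.{u})} ⊆ (fun m : ℕ => (SC.nat m : ZFSet.{u})) '' Set.Iio n := by
    intro y hy
    obtain ⟨m, hm, rfl⟩ := mem_nat.1 hy
    exact ⟨m, hm, rfl⟩
  exact ((Set.finite_Iio n).image _).subset this

theorem finite_gr {x : ZFSet.{u}} (h : {y | y ∈ x}.Finite) (g : ZFSet.{u} → ZFSet.{u}) :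
    {y | y ∈ SC.gr x g}.Finite := by
  refine (h.image (fun y => pair y (g y))).subset ?_
  intro z hz
  obtain ⟨y, hy, rfl⟩ := mem_gr.1 hz
  exact ⟨y, hy, rfl⟩

theorem cardLe_nat_of_finite (hM : IsZF M A) {x : ZFSet.{u}} (hx : ∀ y ∈ x, y ∈ M)
    (h : {y | y ∈ x}.Finite) : ∃ n : ℕ, CardLe M x (SC.nat n) := by
  classical
  set e := h.toFinset.equivFin with he
  set g : ZFSet.{u} → ZFSet.{u} := fun y => if hy : y ∈ h.toFinset then SC.nat (e ⟨y, hy⟩)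
    else ∅ with hg
  have hgy : ∀ y (hy : y ∈ x), ∃ hy' : y ∈ h.toFinset, g y = SC.nat (e ⟨y, hy'⟩) := by
    intro y hy
    have hy' : y ∈ h.toFinset := by simpa using hy
    exact ⟨hy', by rw [hg]; simp only [dif_pos hy']⟩
  refine ⟨_, cardLe_of_gr (g := g) (b := SC.nat h.toFinset.card) ?_ ?_ ?_⟩
  · refine fin_mem hM ?_ (finite_gr h g)
    intro z hz
    obtain ⟨y, hy, rfl⟩ := mem_gr.1 hz
    obtain ⟨hy', h1⟩ := hgy y hy
    refine hM.pair_mem (hx y hy) ?_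
    rw [h1]
    exact hM.trans _ (by
      have := (show U KZ.{u} (fun _ _ (_ : PUnit.{u + 2}) => ZFSet.omega.{u}) by apply_rules (transparency := .reducible) (maxDepth := 400) using is_poly).closed
        hM (a := PUnit.unit) (by intro i; exact i.elim0)
      simpa using this) _ (nat_mem_omega _)
  · intro y hy
    obtain ⟨hy', h1⟩ := hgy y hy
    rw [h1]
    exact nat_mem_nat.2 (e ⟨y, hy'⟩).2
  · intro y hy z hz hyz
    obtain ⟨hy', h1⟩ := hgy y hy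
    obtain ⟨hz', h2⟩ := hgy z hz
    rw [h1, h2, nat_inj] at hyz
    have := e.injective (Fin.ext hyz)
    exact congrArg Subtype.val this

/-- Finiteness in the sense of `M`. -/
theorem finite_iff (hM : IsZF M A) {x : ZFSet.{u}} (hx : x ∈ M) :
    {y | y ∈ x}.Finite ↔ ∃ n ∈ ZFSet.omega, CardLe M x n := by
  constructor
  · intro h
    obtain ⟨n, hn⟩ := cardLe_nat_of_finite hM (fun y hy => hM.trans x hx y hy) h
    exact ⟨_, nat_mem_omega n, hn⟩
  · rintro ⟨n, hn, h⟩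
    obtain ⟨m, rfl⟩ := mem_omega.1 hn
    obtain ⟨f, hf, _, hf2, hf3⟩ := cardLe_iff.1 h
    refine Set.Finite.of_injOn (f := SC.app f) (t := {y | y ∈ (SC.nat m : ZFSet.{u})}) ?_ ?_
      (finite_nat m)
    · intro y hy
      exact hf2 y hy
    · intro y hy z hz h
      exact hf3 y hy z hz h

/-- Finiteness is uniformly definable. -/
theorem urel_finite : URel KZ.{u} (fun _ _ (x : ZFSet.{u}) => {y | y ∈ x}.Finite) := by
  have h : URel KZ.{u} (fun N _ (x : ZFSet.{u}) => ∃ n ∈ ZFSet.omega, CardLe N x n) := by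
    apply_rules (transparency := .reducible) (maxDepth := 400) using is_poly
  exact h.congr (fun N A hN x hx => (finite_iff hN (by simpa using hx)).symm)

theorem _root_.Pool.Agent.Helper22.SC.URel.finite {α : Type (u + 1)} [Ctx.{u} α]
    {f : Set ZFSet.{u} → Set ZFSet.{u} → α → ZFSet.{u}} (hf : U KZ.{u} f) :
    URel KZ.{u} (fun N A a => {y | y ∈ f N A a}.Finite) := urel_finite.comp hf

attribute [is_poly] URel.finite

theorem mem_Fn {T p : ZFSet.{u}} : p ∈ Fn T ↔ p ⊆ T ∧ {x | x ∈ p}.Finite ∧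
    ∀ x y z, pair x y ∈ p → pair x z ∈ p → y = z := by
  unfold Fn
  rw [ZFSet.mem_sep, ZFSet.mem_powerset]

theorem Fn_eq (hM : IsZF M A) {T : ZFSet.{u}} (hT : T ∈ M) : Fn T =
    ZFSet.sep (fun p => {x | x ∈ p}.Finite ∧ ∀ x ∈ M, ∀ y ∈ M, ∀ z ∈ M, pair x y ∈ p →
      pair x z ∈ p → y = z) (Helper66.SC.Pow M T) := by
  ext p
  rw [mem_Fn, ZFSet.mem_sep, mem_Pow]
  constructor
  · rintro ⟨h1, h2, h3⟩
    exact ⟨⟨fin_mem hM (fun y hy => hM.trans T hT y (h1 hy)) h2, h1⟩, h2,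
      fun x _ y _ z _ => h3 x y z⟩
  · rintro ⟨⟨h0, h1⟩, h2, h3⟩
    refine ⟨h1, h2, fun x y z hy hz => ?_⟩
    have h4 := hM.of_pair (hM.trans p h0 _ hy)
    have h5 := hM.of_pair (hM.trans p h0 _ hz)
    exact h3 x h4.1 y h4.2 z h5.2 hy hz

theorem u_Fn : U KZ.{u} (fun _ _ (T : ZFSet.{u}) => Fn T) := by
  have h : U KZ.{u} (fun N _ (T : ZFSet.{u}) => ZFSet.sep (fun p => {x | x ∈ p}.Finite ∧
      ∀ x ∈ N, ∀ y ∈ N, ∀ z ∈ N, pair x y ∈ p → pair x z ∈ p → y = z)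
      (Helper66.SC.Pow N T)) := by
    apply_rules (transparency := .reducible) (maxDepth := 400) using is_poly
  exact h.congr (fun N A hN T hT => (Fn_eq hN (by simpa using hT)).symm)

theorem Fn_mem (hM : IsZF M A) {T : ZFSet.{u}} (hT : T ∈ M) : Fn T ∈ M := by
  have := u_Fn.closed hM (a := T) (by simpa using hT)
  simpa using this

theorem empty_mem_Fn (T : ZFSet.{u}) : ∅ ∈ Fn T := by
  rw [mem_Fn]
  refine ⟨fun x hx => absurd hx (ZFSet.notMem_empty x), ?_, fun x y z h => absurd h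
    (ZFSet.notMem_empty _)⟩
  have : {x : ZFSet.{u} | x ∈ (∅ : ZFSet.{u})} = ∅ := by
    ext x
    simp
  rw [this]
  exact Set.finite_empty

/-- The ideal of finite subsets of the domain. -/
noncomputable def JF (M : Set ZFSet.{u}) (T : ZFSet.{u}) : ZFSet.{u} :=
  ZFSet.sep (fun d => {x | x ∈ d}.Finite) (Helper66.SC.Pow M (SC.dom T))

theorem JF_mem (hM : IsZF M A) {T : ZFSet.{u}} (hT : T ∈ M) : JF M T ∈ M := by
  have h : U KZ.{u} (fun N _ (T : ZFSet.{u}) => ZFSet.sep (fun d => {x | x ∈ d}.Finite)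
      (Helper66.SC.Pow N (SC.dom T))) := by
    apply_rules (transparency := .reducible) (maxDepth := 400) using is_poly
  exact in_zfset.1 (h.closed hM (a := T) (by simpa using hT))

theorem Fn_eq_FP (hM : IsZF M A) {T : ZFSet.{u}} (hT : T ∈ M)
    (hp : ∀ t ∈ T, ∃ x y, t = pair x y) : Fn T = FP M T (JF M T) := by
  ext p
  rw [mem_Fn, Helper83.SC.mem_FP]
  constructor
  · rintro ⟨h1, h2, h3⟩
    have hpM : p ∈ M := fin_mem hM (fun y hy => hM.trans T hT y (h1 hy)) h2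
    refine ⟨hpM, h1, ⟨h3, fun s hs => hp s (h1 hs)⟩, ?_⟩
    have hd : {x | x ∈ SC.dom p}.Finite := by
      refine (h2.image SC.pfst).subset ?_
      intro x hx
      obtain ⟨y, hy⟩ := mem_dom.1 hx
      exact ⟨_, hy, pfst_pair⟩
    unfold JF
    rw [ZFSet.mem_sep, mem_Pow]
    refine ⟨⟨fin_mem hM (fun y hy => ?_) hd, ?_⟩, hd⟩
    · obtain ⟨z, hz⟩ := mem_dom.1 hy
      exact (hM.of_pair (hM.trans p hpM _ hz)).1
    · intro x hx
      obtain ⟨y, hy⟩ := mem_dom.1 hx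
      exact mem_dom.2 ⟨y, h1 hy⟩
  · rintro ⟨_, h1, h2, h3⟩
    refine ⟨h1, ?_, h2.1⟩
    unfold JF at h3
    refine Set.Finite.of_injOn (f := SC.pfst) (t := {y | y ∈ SC.dom p}) ?_ ?_ (mem_sep.1 h3).2
    · intro s hs
      obtain ⟨x, y, rfl⟩ := h2.2 s hs
      rw [pfst_pair]
      exact mem_dom.2 ⟨y, hs⟩
    · intro s hs t ht hst
      obtain ⟨x, y, rfl⟩ := h2.2 s hs
      obtain ⟨x', y', rfl⟩ := h2.2 t ht
      rw [pfst_pair, pfst_pair] at hst
      subst hst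
      rw [h2.1 _ _ _ hs ht]

theorem Fn_homog (hM : IsZF M A) {T : ZFSet.{u}} (hT : T ∈ M)
    (hp : ∀ t ∈ T, ∃ x y, t = pair x y) : Homog M (Fn T) := by
  rw [Fn_eq_FP hM hT hp]
  refine (Helper83.SC.st_F2 M A T (JF M T) hM hT (JF_mem hM hT) ?_).2
  intro a ha b hb
  unfold JF at ha hb ⊢
  rw [ZFSet.mem_sep, mem_Pow] at ha hb ⊢
  have hf : {x | x ∈ a ∪ b}.Finite := by
    have : {x | x ∈ a ∪ b} = {x | x ∈ a} ∪ {x | x ∈ b} := by
      ext x
      simp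
    rw [this]
    exact ha.2.union hb.2
  have hs : a ∪ b ⊆ SC.dom T := by
    intro x hx
    rcases ZFSet.mem_union.1 hx with h | h
    · exact ha.1.2 h
    · exact hb.1.2 h
  refine ⟨⟨?_, hs⟩, hf⟩
  refine fin_mem hM (fun y hy => ?_) hf
  rcases ZFSet.mem_union.1 hy with h | h
  · exact hM.trans a ha.1.1 y h
  · exact hM.trans b hb.1.1 y h

/-- FN. -/
theorem st_FN : ST_FN.{u} := ⟨u_Fn, urel_finite, fun _ _ hM _ hx hf => fin_mem hM hx hf,
  fun _ _ hM T hT hp => ⟨Fn_mem hM hT, empty_mem_Fn T, Fn_homog hM hT hp⟩⟩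

/-! ## The Levy collapse -/

theorem mem_oz {k : Ordinal.{u}} {x : ZFSet.{u}} : x ∈ oz k ↔ ∃ a < k, x = oz a := by
  rw [Ordinal.mem_toZFSet_iff]
  constructor
  · rintro ⟨a, ha, h⟩
    exact ⟨a, ha, h.symm⟩
  · rintro ⟨a, ha, h⟩
    exact ⟨a, ha, h.symm⟩

theorem mem_TC {l k : Ordinal.{u}} {t : ZFSet.{u}} : t ∈ TC l k ↔ ∃ (α ξ : Ordinal.{u}) (n : ℕ),
    l ≤ α ∧ α < k ∧ ξ < α ∧ t = pair (pair (oz α) (nz n)) (oz ξ) := by
  unfold TC
  rw [ZFSet.mem_sep]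
  constructor
  · rintro ⟨h, α, ξ, n, h1, h2, rfl⟩
    rw [pair_mem_prod, pair_mem_prod] at h
    exact ⟨α, ξ, n, h1, Ordinal.toZFSet_mem_toZFSet_iff.1 h.1.1, h2, rfl⟩
  · rintro ⟨α, ξ, n, h1, h2, h3, rfl⟩
    refine ⟨?_, α, ξ, n, h1, h3, rfl⟩
    rw [pair_mem_prod, pair_mem_prod]
    exact ⟨⟨Ordinal.toZFSet_mem_toZFSet_iff.2 h2, nat_mem_omega n⟩,
      Ordinal.toZFSet_mem_toZFSet_iff.2 (h3.trans h2)⟩

theorem TC_eq (l k : Ordinal.{u}) : TC l k = ZFSet.sep (fun t => oz l ⊆ pfst (pfst t) ∧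
    psnd t ∈ pfst (pfst t)) (((oz k).prod ZFSet.omega).prod (oz k)) := by
  ext t
  rw [mem_TC, ZFSet.mem_sep]
  constructor
  · rintro ⟨α, ξ, n, h1, h2, h3, rfl⟩
    rw [pair_mem_prod, pair_mem_prod, pfst_pair, pfst_pair, psnd_pair]
    exact ⟨⟨⟨Ordinal.toZFSet_mem_toZFSet_iff.2 h2, nat_mem_omega n⟩,
      Ordinal.toZFSet_mem_toZFSet_iff.2 (h3.trans h2)⟩,
      Ordinal.toZFSet_subset_toZFSet_iff.2 h1, Ordinal.toZFSet_mem_toZFSet_iff.2 h3⟩
  · rintro ⟨h, h1, h2⟩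
    obtain ⟨s, hs, y, hy, rfl⟩ := ZFSet.mem_prod.1 h
    obtain ⟨a, ha, n, hn, rfl⟩ := ZFSet.mem_prod.1 hs
    rw [pfst_pair, pfst_pair] at h1 h2
    rw [psnd_pair] at h2
    obtain ⟨α, hα, rfl⟩ := mem_oz.1 ha
    obtain ⟨ξ, hξ, rfl⟩ := mem_oz.1 hy
    obtain ⟨m, rfl⟩ := mem_omega.1 hn
    exact ⟨α, ξ, m, Ordinal.toZFSet_subset_toZFSet_iff.1 h1, hα,
      Ordinal.toZFSet_mem_toZFSet_iff.1 h2, rfl⟩

theorem u_TC : U KZ.{u} (fun _ _ (p : ZFSet.{u} × ZFSet.{u}) => TC p.1.rank p.2.rank) := by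
  have h : U KZ.{u} (fun _ _ (p : ZFSet.{u} × ZFSet.{u}) =>
      ZFSet.sep (fun t => SC.rk p.1 ⊆ pfst (pfst t) ∧
        psnd t ∈ pfst (pfst t)) (((SC.rk p.2).prod ZFSet.omega).prod (SC.rk p.2))) := by
    apply_rules (transparency := .reducible) (maxDepth := 400) using is_poly
  exact h.congr (fun N A hN p hp => (TC_eq _ _).symm)

theorem u_Col : U KZ.{u} (fun _ _ (p : ZFSet.{u} × ZFSet.{u}) => Col p.1.rank p.2.rank) :=
  u_Fn.comp u_TC

theorem _root_.Pool.Agent.Helper22.SC.U.Fn {α : Type (u + 1)} [Ctx.{u} α]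
    {f : Set ZFSet.{u} → Set ZFSet.{u} → α → ZFSet.{u}} (hf : U KZ.{u} f) :
    U KZ.{u} (fun N A a => Helper66.GP.Fn (f N A a)) := u_Fn.comp hf

theorem _root_.Pool.Agent.Helper22.SC.U.Col {α : Type (u + 1)} [Ctx.{u} α]
    {f g : Set ZFSet.{u} → Set ZFSet.{u} → α → ZFSet.{u}} (hf : U KZ.{u} f) (hg : U KZ.{u} g) :
    U KZ.{u} (fun N A a => Helper66.GP.Col (f N A a).rank (g N A a).rank) :=
  u_Col.comp (hf.prodMk hg)

attribute [is_poly] U.Fn U.Col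

theorem oz_mem_of_le (hM : IsZF M A) {l k : Ordinal.{u}} (hk : oz k ∈ M) (h : l ≤ k) :
    oz l ∈ M := by
  rcases h.lt_or_eq with h | h
  · exact hM.trans _ hk _ (Ordinal.toZFSet_mem_toZFSet_iff.2 h)
  · rwa [h]

theorem TC_mem (hM : IsZF M A) {l k : Ordinal.{u}} (hl : oz l ∈ M) (hk : oz k ∈ M) :
    TC l k ∈ M := by
  have := u_TC.closed hM (a := (oz l, oz k)) (by simp [hl, hk])
  simpa using this

theorem Col_mem (hM : IsZF M A) {l k : Ordinal.{u}} (hl : oz l ∈ M) (hk : oz k ∈ M) :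
    Col l k ∈ M := Fn_mem hM (TC_mem hM hl hk)

theorem empty_mem_Col (l k : Ordinal.{u}) : ∅ ∈ Col l k := empty_mem_Fn _

theorem TC_pair {l k : Ordinal.{u}} : ∀ t ∈ TC l k, ∃ x y, t = pair x y := by
  intro t ht
  obtain ⟨α, ξ, n, _, _, _, rfl⟩ := mem_TC.1 ht
  exact ⟨_, _, rfl⟩

theorem Col_homog (hM : IsZF M A) {l k : Ordinal.{u}} (hl : oz l ∈ M) (hk : oz k ∈ M) :
    Homog M (Col l k) := Fn_homog hM (TC_mem hM hl hk) TC_pair

theorem mem_Col {l k : Ordinal.{u}} {p : ZFSet.{u}} : p ∈ Col l k ↔ p ⊆ TC l k ∧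
    {x | x ∈ p}.Finite ∧ ∀ x y z, pair x y ∈ p → pair x z ∈ p → y = z := mem_Fn

theorem TC_mono {l l' k k' : Ordinal.{u}} (h : l' ≤ l) (h' : k ≤ k') : TC l k ⊆ TC l' k' := by
  intro t ht
  obtain ⟨α, ξ, n, h1, h2, h3, rfl⟩ := mem_TC.1 ht
  exact mem_TC.2 ⟨α, ξ, n, h.trans h1, h2.trans_le h', h3, rfl⟩

theorem TC_disj {l m k t : _} (h1 : t ∈ TC.{u} l m) (h2 : t ∈ TC.{u} m k) : False := by
  obtain ⟨α, ξ, n, _, h3, _, rfl⟩ := mem_TC.1 h1
  obtain ⟨α', ξ', n', h4, _, _, h5⟩ := mem_TC.1 h2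
  rw [pair_inj, pair_inj] at h5
  have := Ordinal.toZFSet_injective h5.1.1
  subst this
  exact absurd h3 (not_lt.2 h4)

theorem TC_disj' {l m k x y z : _} (h1 : pair x y ∈ TC.{u} l m) (h2 : pair x z ∈ TC.{u} m k) :
    False := by
  obtain ⟨α, ξ, n, _, h3, _, h⟩ := mem_TC.1 h1
  obtain ⟨α', ξ', n', h4, _, _, h5⟩ := mem_TC.1 h2
  rw [pair_inj] at h h5
  have h6 := h.1.symm.trans h5.1
  rw [pair_inj] at h6
  have := Ordinal.toZFSet_injective h6.1
  subst this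
  exact absurd h3 (not_lt.2 h4)

theorem TC_split {l m k : Ordinal.{u}} {t : ZFSet.{u}} (h : t ∈ TC l k) :
    t ∈ TC l m ∨ t ∈ TC m k := by
  obtain ⟨α, ξ, n, h1, h2, h3, rfl⟩ := mem_TC.1 h
  rcases lt_or_ge α m with h4 | h4
  · exact Or.inl (mem_TC.2 ⟨α, ξ, n, h1, h4, h3, rfl⟩)
  · exact Or.inr (mem_TC.2 ⟨α, ξ, n, h4, h2, h3, rfl⟩)

theorem Col_split (hM : IsZF M A) {l m k : Ordinal.{u}} (hk : oz k ∈ M) (hlm : l ≤ m)
    (hmk : m ≤ k) : Split M (Col l k) (Col l m) (Col m k) where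
  hP := Col_mem hM (oz_mem_of_le hM hk (hlm.trans hmk)) hk
  hQ := Col_mem hM (oz_mem_of_le hM hk (hlm.trans hmk)) (oz_mem_of_le hM hk hmk)
  hR := Col_mem hM (oz_mem_of_le hM hk hmk) hk
  eQ := empty_mem_Col _ _
  eR := empty_mem_Col _ _
  un := by
    intro b hb q hq
    rw [mem_Col] at hb hq ⊢
    refine ⟨?_, ?_, ?_⟩
    · intro t ht
      rcases ZFSet.mem_union.1 ht with h | h
      · exact TC_mono le_rfl hmk (hb.1 h)
      · exact TC_mono hlm le_rfl (hq.1 h)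
    · have : {x | x ∈ b ∪ q} = {x | x ∈ b} ∪ {x | x ∈ q} := by
        ext x
        simp
      rw [this]
      exact hb.2.1.union hq.2.1
    · intro x y z hy hz
      rcases ZFSet.mem_union.1 hy with h | h <;> rcases ZFSet.mem_union.1 hz with h' | h'
      · exact hb.2.2 x y z h h'
      · exact (TC_disj' (hb.1 h) (hq.1 h')).elim
      · exact (TC_disj' (hb.1 h') (hq.1 h)).elim
      · exact hq.2.2 x y z h h'
  dec := by
    intro p hp
    rw [mem_Col] at hp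
    have hsub : ∀ T : ZFSet.{u}, p ∩ T ∈ Fn T := by
      intro T
      rw [mem_Fn]
      refine ⟨fun x hx => (ZFSet.mem_inter.1 hx).2, hp.2.1.subset
        (fun x hx => (ZFSet.mem_inter.1 hx).1), fun x y z hy hz =>
        hp.2.2 x y z (ZFSet.mem_inter.1 hy).1 (ZFSet.mem_inter.1 hz).1⟩
    refine ⟨p ∩ TC l m, hsub _, p ∩ TC m k, hsub _, ?_⟩
    ext t
    rw [ZFSet.mem_union, ZFSet.mem_inter, ZFSet.mem_inter]
    constructor
    · intro h
      rcases TC_split (m := m) (hp.1 h) with h' | h'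
      · exact Or.inl ⟨h, h'⟩
      · exact Or.inr ⟨h, h'⟩
    · rintro (h | h)
      · exact h.1
      · exact h.1
  cmp := by
    intro b hb b' hb' q hq q' hq' h
    rw [mem_Col] at hb hb' hq hq'
    constructor
    · intro t ht
      rcases ZFSet.mem_union.1 (h (ZFSet.mem_union.2 (Or.inl ht))) with h' | h'
      · exact h'
      · exact (TC_disj (hb.1 ht) (hq'.1 h')).elim
    · intro t ht
      rcases ZFSet.mem_union.1 (h (ZFSet.mem_union.2 (Or.inr ht))) with h' | h'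
      · exact (TC_disj (hb'.1 h') (hq.1 ht)).elim
      · exact h'

/-- COL. -/
theorem st_COL : ST_COL.{u} := ⟨u_Col, fun _ _ _ _ _ hM hk hlm hmk =>
  ⟨Col_split hM hk hlm hmk, Col_homog hM (oz_mem_of_le hM hk (hlm.trans hmk)) hk,
    empty_mem_Col _ _⟩⟩

end Pool.Agent.Helper22.GP
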