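import Pool.Agent.Helper66.GP.Kit
import Pool.Agent.Helper22.GP.FN

/-! # B3, B4, B5 -/

universe u

namespace Pool.Agent.Helper22.GP

open ZFSet Pool.Agent.Helper66.SC Pool.Agent.Helper22.SC Pool.Agent.Helper66.GP

variable {M N A : Set ZFSet.{u}}

theorem cardLe_mono (h : ∀ x ∈ M, x ∈ N) {a b : ZFSet.{u}} (hab : CardLe M a b) :
    CardLe N a b := by
  obtain ⟨f, hf, h1, h2⟩ := hab
  exact ⟨f, h f hf, h1, h2⟩

theorem oz_mem_oz {a b : Ordinal.{u}} : oz a ∈ oz b ↔ a < b := Ordinal.toZFSet_mem_toZFSet_iff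

theorem oz_sub_oz {a b : Ordinal.{u}} : oz a ⊆ oz b ↔ a ≤ b :=
  Ordinal.toZFSet_subset_toZFSet_iff

theorem oz_inj {a b : Ordinal.{u}} : oz a = oz b ↔ a = b :=
  ⟨fun h => Ordinal.toZFSet_injective h, fun h => by rw [h]⟩

theorem omega_oz : (ZFSet.omega : ZFSet.{u}) = oz Ordinal.omega0 := omega_eq

/-! ## Closure points -/

/-- the next element -/
noncomputable def nxt (k R x : ZFSet.{u}) : ZFSet.{u} :=
  SC.lst (ZFSet.sep (fun b => x ∈ b ∧ pair x b ∈ R) k)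

/-- the sequence of iterates -/
noncomputable def its (k R l : ZFSet.{u}) : ℕ → ZFSet.{u}
  | 0 => l
  | n + 1 => nxt k R (its k R l n)

theorem its_mem (hM : IsZF M A) {k R l : ZFSet.{u}} (hk : k ∈ M) (hR : R ∈ M) (hl : l ∈ M) :
    ∃ g ∈ M, ∀ n : ℕ, ∀ y, pair (SC.nat n) y ∈ g ↔ y = its k R l n := by
  classical
  have key : U KZ.{u} (fun N A (p : ((ZFSet.{u} × ZFSet.{u}) × ZFSet.{u}) × ZFSet.{u}) =>
      if p.2 ∈ ZFSet.omega then its p.1.1.1 p.1.1.2 p.1.2 (SC.toNat p.2) else ∅) := by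
    refine U.natrec (α := ((ZFSet.{u} × ZFSet.{u}) × ZFSet.{u}) × ZFSet.{u})
      (z := fun _ _ p => p.1.2) (S := fun _ _ p _ x => nxt p.1.1.1 p.1.1.2 x)
      (H := fun _ _ p n => its p.1.1.1 p.1.1.2 p.1.2 n) (f := fun _ _ p => p.2) (by apply_rules (transparency := .reducible) (maxDepth := 400) using is_poly) ?_
      (fun _ _ _ => rfl) (fun _ _ _ _ => rfl) (by apply_rules (transparency := .reducible) (maxDepth := 400) using is_poly)
    unfold nxt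
    apply_rules (transparency := .reducible) (maxDepth := 400) using is_poly
  have hg : U KZ.{u} (fun N A (p : (ZFSet.{u} × ZFSet.{u}) × ZFSet.{u}) =>
      SC.gr ZFSet.omega (fun x => if x ∈ ZFSet.omega then its p.1.1 p.1.2 p.2 (SC.toNat x)
        else ∅)) := U.gr (by apply_rules (transparency := .reducible) (maxDepth := 400) using is_poly) key
  have := in_zfset.1 (hg.closed hM (a := ((k, R), l)) (by simp [hk, hR, hl]))
  refine ⟨_, this, fun n y => ?_⟩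
  rw [pair_mem_gr]
  constructor
  · rintro ⟨h1, rfl⟩
    rw [if_pos h1, toNat_nat]
  · intro h
    refine ⟨nat_mem_omega n, ?_⟩
    rw [if_pos (nat_mem_omega n), toNat_nat]
    exact h

theorem exists_closed (hM : IsZF M A) {κ : Ordinal.{u}} (hκ : oz κ ∈ M)
    (hreg : ∀ f ∈ M, (∀ x y z, pair x y ∈ f → pair x z ∈ f → y = z) →
      ∃ b < κ, ∀ x y : Ordinal.{u}, x < Ordinal.omega0 → y < κ → pair (oz x) (oz y) ∈ f → y < b)
    {R : ZFSet.{u}} (hR : R ∈ M)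
    (hmono : ∀ a a' b : Ordinal.{u}, a' ≤ a → pair (oz a) (oz b) ∈ R → pair (oz a') (oz b) ∈ R)
    (hex : ∀ a < κ, ∃ b < κ, a < b ∧ pair (oz a) (oz b) ∈ R) {l : Ordinal.{u}} (hl : l < κ) :
    ∃ m, l < m ∧ m < κ ∧ ∀ a < m, ∃ b < m, a < b ∧ pair (oz a) (oz b) ∈ R := by
  have hstep : ∀ a < κ, ∃ b < κ, a < b ∧ pair (oz a) (oz b) ∈ R ∧ nxt (oz κ) R (oz a) = oz b := by
    intro a ha
    obtain ⟨b, hb, hab, hb'⟩ := hex a ha
    set S : ZFSet.{u} := ZFSet.sep (fun b => oz a ∈ b ∧ pair (oz a) b ∈ R) (oz κ) with hS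
    have hne : S ≠ ∅ := by
      intro h
      have : oz b ∈ S := ZFSet.mem_sep.2 ⟨oz_mem_oz.2 hb, oz_mem_oz.2 hab, hb'⟩
      rw [h] at this
      exact ZFSet.notMem_empty _ this
    have hord : ∀ x ∈ S, x.IsOrdinal := by
      intro x hx
      obtain ⟨c, _, rfl⟩ := mem_oz.1 (ZFSet.mem_sep.1 hx).1
      exact ZFSet.isOrdinal_toZFSet _
    have h1 := (lst_mem hord hne).1
    obtain ⟨h2, h3, h4⟩ := ZFSet.mem_sep.1 h1
    obtain ⟨c, hc, hc'⟩ := mem_oz.1 h2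
    rw [hc'] at h3 h4
    exact ⟨c, hc, oz_mem_oz.1 h3, h4, hc'⟩
  have hseq : ∀ n : ℕ, ∃ c < κ, its (oz κ) R (oz l) n = oz c := by
    intro n
    induction n with
    | zero => exact ⟨l, hl, rfl⟩
    | succ n ih =>
      obtain ⟨c, hc, hc'⟩ := ih
      obtain ⟨b, hb, _, _, h⟩ := hstep c hc
      exact ⟨b, hb, by change nxt (oz κ) R (its (oz κ) R (oz l) n) = _; rw [hc', h]⟩
  choose g hg hg' using hseq
  have hnext : ∀ n, g n < g (n + 1) ∧ pair (oz (g n)) (oz (g (n + 1))) ∈ R := by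
    intro n
    obtain ⟨b, hb, h1, h2, h⟩ := hstep (g n) (hg n)
    have : oz (g (n + 1)) = oz b := by
      rw [← hg' (n + 1), ← h, ← hg' n]
      rfl
    rw [oz_inj.1 this]
    exact ⟨h1, h2⟩
  have h0 : g 0 = l := oz_inj.1 (hg' 0).symm
  obtain ⟨f, hf, hf'⟩ := its_mem hM hκ hR (oz_mem_of_le hM hκ hl.le)
  have hfunc : ∀ x y z, pair x y ∈ ZFSet.sep (fun t => pfst t ∈ ZFSet.omega) f →
      pair x z ∈ ZFSet.sep (fun t => pfst t ∈ ZFSet.omega) f → y = z := by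
    intro x y z hy hz
    obtain ⟨h1, h2⟩ := ZFSet.mem_sep.1 hy
    obtain ⟨h3, _⟩ := ZFSet.mem_sep.1 hz
    rw [pfst_pair] at h2
    obtain ⟨n, rfl⟩ := mem_omega.1 h2
    rw [(hf' n y).1 h1, (hf' n z).1 h3]
  have hfM : ZFSet.sep (fun t => pfst t ∈ ZFSet.omega) f ∈ M := by
    have h : U KZ.{u} (fun _ _ (f : ZFSet.{u}) => ZFSet.sep (fun t => pfst t ∈ ZFSet.omega) f) := by
      apply_rules (transparency := .reducible) (maxDepth := 400) using is_poly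
    exact in_zfset.1 (h.closed hM (a := f) (by simpa using hf))
  obtain ⟨b, hb, hb'⟩ := hreg _ hfM hfunc
  have hgb : ∀ n, g n < b := by
    intro n
    refine hb' (n : Ordinal.{u}) (g n) (Ordinal.nat_lt_omega0 n) (hg n) ?_
    refine ZFSet.mem_sep.2 ⟨(hf' n _).2 (hg' n).symm, ?_⟩
    rw [pfst_pair]
    exact nat_mem_omega n
  have hbdd : BddAbove (Set.range g) := Ordinal.bddAbove_of_small
  refine ⟨⨆ n, g n, ?_, ?_, ?_⟩
  · calc l = g 0 := h0.symm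
      _ < g 1 := (hnext 0).1
      _ ≤ _ := le_ciSup hbdd 1
  · exact lt_of_le_of_lt (ciSup_le (fun n => (hgb n).le)) hb
  · intro a ha
    obtain ⟨n, hn⟩ := (lt_ciSup_iff hbdd).1 ha
    refine ⟨g (n + 1), (hnext (n + 1)).1.trans_le (le_ciSup hbdd (n + 2)), hn.trans (hnext n).1, ?_⟩
    exact hmono _ _ _ hn.le (hnext n).2

/-! ## B5 -/

theorem gen_func {l k : Ordinal.{u}} {G : ZFSet.{u}} (hG : IsGeneric M (Col l k) G)
    {x y z p q : ZFSet.{u}} (hp : p ∈ G) (hq : q ∈ G) (h1 : pair x y ∈ p) (h2 : pair x z ∈ q) :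
    y = z := by
  obtain ⟨r, hr, hpr, hqr⟩ := hG.dir p hp q hq
  exact (mem_Col.1 (hG.sub hr)).2.2 x y z (hpr h1) (hqr h2)

theorem Col_extend {l k α ξ : Ordinal.{u}} {p : ZFSet.{u}} (hp : p ∈ Col l k) (h1 : l ≤ α)
    (h2 : α < k) (h3 : ξ < α) : ∃ n : ℕ, insert (pair (pair (oz α) (nz n)) (oz ξ)) p ∈ Col l k := by
  rw [mem_Col] at hp
  obtain ⟨n, hn⟩ : ∃ n : ℕ, ∀ y, pair (pair (oz α) (nz n)) y ∉ p := by
    by_contra hcon
    push Not at hcon
    choose y hy using hcon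
    have hinj : Function.Injective (fun n : ℕ => pair (pair (oz α) (nz n)) (y n)) := by
      intro n m h
      have h' := (pair_inj.1 (pair_inj.1 h).1).2
      exact_mod_cast oz_inj.1 h'
    have hr : Set.range (fun n : ℕ => pair (pair (oz α) (nz n)) (y n)) ⊆ {x | x ∈ p} := by
      rintro _ ⟨n, rfl⟩
      exact hy n
    exact Set.infinite_range_of_injective hinj (hp.2.1.subset hr)
  refine ⟨n, ?_⟩
  rw [mem_Col]
  refine ⟨?_, ?_, ?_⟩
  · intro x hx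
    rcases ZFSet.mem_insert_iff.1 hx with rfl | h
    · exact mem_TC.2 ⟨α, ξ, n, h1, h2, h3, rfl⟩
    · exact hp.1 h
  · have : {x | x ∈ insert (pair (pair (oz α) (nz n)) (oz ξ)) p} =
        insert (pair (pair (oz α) (nz n)) (oz ξ)) {x | x ∈ p} := by
      ext x
      simp
    rw [this]
    exact hp.2.1.insert _
  · intro x y z hy hz
    rcases ZFSet.mem_insert_iff.1 hy with h | h <;> rcases ZFSet.mem_insert_iff.1 hz with h' | h'
    · rw [pair_inj] at h h'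
      rw [h.2, h'.2]
    · rw [pair_inj] at h
      rw [h.1] at h'
      exact (hn z h').elim
    · rw [pair_inj] at h'
      rw [h'.1] at h
      exact (hn y h).elim
    · exact hp.2.2 x y z h h'

/-- every coordinate of the generic is a surjection -/
theorem gen_surj (hM : IsZF M A) {l k α ξ : Ordinal.{u}} {G : ZFSet.{u}} (hk : oz k ∈ M)
    (hG : IsGeneric M (Col l k) G) (h1 : l ≤ α) (h2 : α < k) (h3 : ξ < α) :
    ∃ p ∈ G, ∃ n : ℕ, pair (pair (oz α) (nz n)) (oz ξ) ∈ p := by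
  have hl := oz_mem_of_le hM hk (h1.trans h2.le)
  have hC := Col_mem hM hl hk
  have hα := oz_mem_of_le hM hk h2.le
  have hξ := oz_mem_of_le hM hα h3.le
  have hD : ZFSet.sep (fun p => ∃ n ∈ ZFSet.omega, pair (pair (oz α) n) (oz ξ) ∈ p) (Col l k)
      ∈ M := by
    have h : U KZ.{u} (fun _ _ (t : (ZFSet.{u} × ZFSet.{u}) × ZFSet.{u}) =>
        ZFSet.sep (fun p => ∃ n ∈ ZFSet.omega, pair (pair t.1.1 n) t.1.2 ∈ p) t.2) := by
      apply_rules (transparency := .reducible) (maxDepth := 400) using is_poly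
    exact in_zfset.1 (h.closed hM (a := ((oz α, oz ξ), Col l k)) (by simp [hα, hξ, hC]))
  obtain ⟨p, hp, hp'⟩ := hG.meets _ hD (fun x hx => (ZFSet.mem_sep.1 hx).1) (by
    intro p hp
    obtain ⟨n, hn⟩ := Col_extend hp h1 h2 h3
    refine ⟨_, ZFSet.mem_sep.2 ⟨hn, nz n, nat_mem_omega n, ?_⟩, ?_⟩
    · exact ZFSet.mem_insert_iff.2 (Or.inl rfl)
    · intro x hx
      exact ZFSet.mem_insert_iff.2 (Or.inr hx))
  obtain ⟨_, n, hn, h⟩ := ZFSet.mem_sep.1 hp'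
  obtain ⟨m, rfl⟩ := mem_omega.1 hn
  exact ⟨p, hp, m, h⟩

/-- B5. -/
theorem st_B5 : ST_B5.{u} := by
  intro M κ l G hM hI hl hG x hx
  obtain ⟨hxM, c, hc, hxc⟩ := hx
  have hP : Col l κ ∈ M := Col_mem hM.zf (oz_mem_of_le hM.zf hI.mem hl.le) hI.mem
  have hE := st_KE M (Col l κ) G hM hP hG
  have hsub : ∀ x ∈ M, x ∈ Ext M G := fun x hx => sub_ext hM hP hG hx
  set α := max c l with hα
  have hακ : α < κ := max_lt hc hl
  have hαM : oz α ∈ M := oz_mem_of_le hM.zf hI.mem hακ.le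
  have hcM : oz c ∈ M := oz_mem_of_le hM.zf hI.mem hc.le
  have h1 : CardLe (Ext M G) x (oz α) := cardLe_trans hE.zf (hsub x hxM) (cardLe_mono hsub hxc)
    (cardLe_subset hE.zf (hsub _ hcM) (oz_sub_oz.2 (le_max_left _ _)))
  refine cardLe_trans hE.zf (hsub x hxM) h1 ?_
  have hs : ZFSet.sep (fun t => ∃ p ∈ G, pair (pair (oz α) (pfst t)) (psnd t) ∈ p)
      (ZFSet.omega.prod (oz α)) ∈ Ext M G := by
    have h : U KZ.{u} (fun _ _ (t : ZFSet.{u} × ZFSet.{u}) =>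
        ZFSet.sep (fun s => ∃ p ∈ t.2, pair (pair t.1 (pfst s)) (psnd s) ∈ p)
        (ZFSet.omega.prod t.1)) := by
      apply_rules (transparency := .reducible) (maxDepth := 400) using is_poly
    exact in_zfset.1 (h.closed hE.zf (a := (oz α, G)) (by
      simp [hsub _ hαM, gen_mem_ext hM hP hG]))
  have hω : oz Ordinal.omega0 ∈ Ext M G := by
    rw [← omega_oz]
    exact in_zfset.1 ((show U KZ.{u} (fun _ _ (_ : PUnit.{u + 2}) => ZFSet.omega.{u}) by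
      apply_rules (transparency := .reducible) (maxDepth := 400) using is_poly).closed hE.zf (a := PUnit.unit) (by simp))
  rw [omega_oz]
  refine st_K2 (Ext M G) ∅ hE.zf (oz Ordinal.omega0) hω (oz α) (hsub _ hαM) _ hs _ hω
    (cardLe_refl hE.zf hω) ?_ ?_
  · intro a b c hb hc
    obtain ⟨_, p, hp, hp'⟩ := ZFSet.mem_sep.1 hb
    obtain ⟨_, q, hq, hq'⟩ := ZFSet.mem_sep.1 hc
    rw [pfst_pair, psnd_pair] at hp' hq'
    exact gen_func hG hp hq hp' hq'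
  · intro y hy
    obtain ⟨ξ, hξ, rfl⟩ := mem_oz.1 hy
    obtain ⟨p, hp, n, hn⟩ := gen_surj hM.zf hI.mem hG (le_max_right c l) hακ hξ
    have hn0 : nz n ∈ (ZFSet.omega : ZFSet.{u}) := nat_mem_omega n
    refine ⟨nz n, by rw [← omega_oz]; exact hn0, ZFSet.mem_sep.2 ⟨?_, p, hp, ?_⟩⟩
    · rw [pair_mem_prod]
      exact ⟨hn0, hy⟩
    · rw [pfst_pair, psnd_pair]
      exact hn


/-! ## B3 -/

theorem small_mono (h : ∀ x ∈ M, x ∈ N) {κ : Ordinal.{u}} {x : ZFSet.{u}}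
    (hx : Small M κ x) : Small N κ x := by
  obtain ⟨hxM, c, hc, hxc⟩ := hx
  exact ⟨h x hxM, c, hc, cardLe_mono h hxc⟩

/-- B3. -/
theorem st_B3 (hB1 : ST_B1.{u}) : ST_B3.{u} := by
  intro M κ P G hM hI hP hG
  have hE := st_KE M P G hM hP.1 hG
  have hsub : ∀ x ∈ M, x ∈ Ext M G := fun x hx => sub_ext hM hP.1 hG hx
  obtain ⟨b1, b2, b3, b4, b5, b6, b7, b8, b9⟩ := hB1 M κ hM.zf hM.wo hI
  have hE0 : ∅ ∈ P := hG.sub hG.top
  refine ⟨⟨hsub _ hI.mem, hI.gt, ?_, ?_⟩, fun x hx => small_mono hsub hx⟩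
  · -- power
    intro a ha
    have haM : oz a ∈ M := oz_mem_of_le hM.zf hI.mem ha.le
    obtain ⟨hQM, c, hc, hQc⟩ := b1 _ (b2 _ _ (b6 a ha) hP)
    refine ⟨c, hc, ?_⟩
    have hcM : oz c ∈ Ext M G := hsub _ (oz_mem_of_le hM.zf hI.mem hc.le)
    have hev : U KZ.{u} (fun _ _ (a : (ZFSet.{u} × ZFSet.{u}) × ZFSet.{u}) =>
        ev a.1.1 a.1.2 a.2) := by
      unfold ev
      apply_rules (transparency := .reducible) (maxDepth := 400) using is_poly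
    have hs : SC.gr (PW M ((oz a).prod P)) (fun σ => ev (oz a) σ G) ∈ Ext M G := by
      have h : U KZ.{u} (fun _ _ (t : (ZFSet.{u} × ZFSet.{u}) × ZFSet.{u}) =>
          SC.gr t.1.1 (fun σ => ev t.1.2 σ t.2)) := by
        refine U.gr (by apply_rules (transparency := .reducible) (maxDepth := 400) using is_poly) ?_
        exact hev.comp (f := fun _ _ (p : ((ZFSet.{u} × ZFSet.{u}) × ZFSet.{u}) × ZFSet.{u}) =>
          ((p.1.1.2, p.2), p.1.2)) (by apply_rules (transparency := .reducible) (maxDepth := 400) using is_poly)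
      exact in_zfset.1 (h.closed hE.zf (a := ((PW M ((oz a).prod P), oz a), G)) (by
        simp [hsub _ haM, gen_mem_ext hM hP.1 hG, hsub _ hQM]))
    refine st_K2 (Ext M G) ∅ hE.zf _ (hsub _ hQM) _ (Pow_mem hE.zf (hsub _ haM)) _ hs c hcM
      (cardLe_mono hsub hQc) ?_ ?_
    · intro x y z hy hz
      rw [pair_mem_gr] at hy hz
      rw [hy.2, hz.2]
    · intro y hy
      obtain ⟨hyE, hya⟩ := mem_Pow.1 hy
      obtain ⟨σ, hσ, hσ', rfl⟩ := (st_KS M P G hM hP.1 hG (oz a) haM).2 y hyE hya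
      exact ⟨σ, mem_Pow.2 ⟨hσ, hσ'⟩, pair_mem_gr.2 ⟨mem_Pow.2 ⟨hσ, hσ'⟩, rfl⟩⟩
  · -- regularity
    intro a ha f hf hfun
    have haM : oz a ∈ M := oz_mem_of_le hM.zf hI.mem ha.le
    obtain ⟨τ, hτ, rfl⟩ := hf
    have hbM : (oz a).prod (oz κ) ∈ M := prod_mem hM.zf haM hI.mem
    obtain ⟨D, hD, hD'⟩ := st_KD M P hM hP.1 hE0 1 (.mem 0 1) (fun _ => τ) (fun _ => hτ) _ hbM
    have hSm := b2 _ _ (b6 a ha) hP
    set F : ZFSet.{u} := ZFSet.sep (fun t => pair (pair (pfst (pfst t)) (psnd t)) (psnd (pfst t))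
      ∈ D ∧ ∀ η ∈ psnd t, pair (pair (pfst (pfst t)) η) (psnd (pfst t)) ∉ D)
      (((oz a).prod P).prod (oz κ)) with hF
    have hFM : F ∈ M := by
      have h : U KZ.{u} (fun _ _ (p : ((ZFSet.{u} × ZFSet.{u}) × ZFSet.{u}) × ZFSet.{u}) =>
          ZFSet.sep (fun t => pair (pair (pfst (pfst t)) (psnd t)) (psnd (pfst t)) ∈ p.2 ∧
          ∀ η ∈ psnd t, ¬ pair (pair (pfst (pfst t)) η) (psnd (pfst t)) ∈ p.2)
          (((p.1.1.1).prod p.1.1.2).prod p.1.2)) := by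
        apply_rules (transparency := .reducible) (maxDepth := 400) using is_poly
      exact in_zfset.1 (h.closed hM.zf (a := (((oz a, P), oz κ), D)) (by
        simp [haM, hP.1, hI.mem, hD]))
    have mF : ∀ s p y, pair (pair s p) y ∈ F ↔ (s ∈ oz a ∧ p ∈ P ∧ y ∈ oz κ) ∧
        pair (pair s y) p ∈ D ∧ ∀ η ∈ y, pair (pair s η) p ∉ D := by
      intro s p y
      rw [hF, ZFSet.mem_sep, pair_mem_prod, pair_mem_prod]
      simp only [pfst_pair, psnd_pair]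
      tauto
    obtain ⟨b, hb, hb'⟩ := b9 _ hSm F hFM (by
      intro s y z hy hz
      obtain ⟨hy1, _⟩ := ZFSet.mem_sep.1 hy
      rw [pair_mem_prod] at hy1
      obtain ⟨ξ, hξ, p, hp, rfl⟩ := ZFSet.mem_prod.1 hy1.1
      rw [mF] at hy hz
      obtain ⟨c, hc, rfl⟩ := mem_oz.1 hy.1.2.2
      obtain ⟨d, hd, rfl⟩ := mem_oz.1 hz.1.2.2
      rcases lt_trichotomy c d with h | h | h
      · exact (hz.2.2 _ (oz_mem_oz.2 h) hy.2.1).elim
      · rw [h]
      · exact (hy.2.2 _ (oz_mem_oz.2 h) hz.2.1).elim)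
    refine ⟨b, hb, fun x y hx hy hxy => ?_⟩
    have hxM : oz x ∈ oz a := oz_mem_oz.2 hx
    have hyM : oz y ∈ oz κ := oz_mem_oz.2 hy
    have hpb : pair (oz x) (oz y) ∈ (oz a).prod (oz κ) := pair_mem_prod.2 ⟨hxM, hyM⟩
    have hpM := hM.zf.trans _ hbM _ hpb
    -- a condition forcing (x, y) in τ
    have hv : ∀ i, (![chk (pair (oz x) (oz y)), τ] : Fin 2 → ZFSet.{u}) i ∈ M := by
      intro i
      fin_cases i
      · exact chk_mem hM.zf hpM
      · exact hτ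
    obtain ⟨p, hp, h⟩ := st_KT M P G hM hP.1 hG 2 (.mem 0 1) ![chk (pair (oz x) (oz y)), τ] hv (by
      change val G (chk (pair (oz x) (oz y))) ∈ val G τ
      rwa [val_chk' hM hP.1 hG hpM])
    have hpD : pair (pair (oz x) (oz y)) p ∈ D := by
      refine (hD' _ hpb p (hG.sub hp)).2 (fun G' hG' hp' => ?_)
      have := h G' hG' hp'
      change val G' (chk (pair (oz x) (oz y))) ∈ val G' τ at this
      rw [val_chk' hM hP.1 hG' hpM] at this
      exact this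
    -- the least value forced
    have hleast : ∃ c : Ordinal.{u}, (c < κ ∧ pair (pair (oz x) (oz c)) p ∈ D) ∧
        ∀ d : Ordinal.{u}, (d < κ ∧ pair (pair (oz x) (oz d)) p ∈ D) → c ≤ d := by
      have hne : {c : Ordinal.{u} | c < κ ∧ pair (pair (oz x) (oz c)) p ∈ D}.Nonempty :=
        ⟨y, hy, hpD⟩
      exact ⟨sInf _, csInf_mem hne, fun d hd => csInf_le' hd⟩
    obtain ⟨c, ⟨hc, hcD⟩, hc'⟩ := hleast
    have hcf : pair (oz x) (oz c) ∈ val G τ :=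
      (hD' _ (pair_mem_prod.2 ⟨hxM, oz_mem_oz.2 hc⟩) p (hG.sub hp)).1 hcD G hG hp
    have hyc : y = c := oz_inj.1 (hfun _ _ _ hxy hcf)
    rw [hyc]
    refine hb' (pair (oz x) p) (pair_mem_prod.2 ⟨hxM, hG.sub hp⟩) c hc ?_
    rw [mF]
    refine ⟨⟨hxM, hG.sub hp, oz_mem_oz.2 hc⟩, hcD, fun η hη hηD => ?_⟩
    obtain ⟨d, hd, rfl⟩ := mem_oz.1 hη
    exact absurd (hc' d ⟨hd.trans hc, hηD⟩) (not_le.2 hd)

/-! ## B4 -/

theorem fin_bound {l m : Ordinal.{u}} (hm : ∀ a < m, a + 1 < m) (h0 : 0 < m) {p : ZFSet.{u}}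
    (hp : p ∈ Col l m) : ∃ a < m, p ∈ Col l a := by
  classical
  rw [mem_Col] at hp
  have h1 : ∀ x : {x // x ∈ p}, ∃ a : Set.Iio m, x.1 ∈ TC l a.1 := by
    rintro ⟨x, hx⟩
    obtain ⟨α, ξ, n, h1, h2, h3, rfl⟩ := mem_TC.1 (hp.1 hx)
    exact ⟨⟨α + 1, hm α h2⟩, mem_TC.2 ⟨α, ξ, n, h1, Order.lt_succ α, h3, rfl⟩⟩
  choose g hg using h1
  haveI : Nonempty (Set.Iio m) := ⟨⟨0, h0⟩⟩
  haveI : Finite {x // x ∈ p} := hp.2.1
  haveI : Fintype {x // x ∈ p} := Fintype.ofFinite _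
  obtain ⟨a, ha⟩ := Finset.exists_le (Finset.univ.image g)
  refine ⟨a.1, a.2, ?_⟩
  rw [mem_Col]
  refine ⟨fun x hx => ?_, hp.2⟩
  exact TC_mono le_rfl (show (g ⟨x, hx⟩).1 ≤ a.1 from ha _ (Finset.mem_image_of_mem g
    (Finset.mem_univ _))) (hg ⟨x, hx⟩)

theorem Col_mono {l l' k k' : Ordinal.{u}} (h : l' ≤ l) (h' : k ≤ k') : Col l k ⊆ Col l' k' := by
  intro p hp
  rw [mem_Col] at hp ⊢
  exact ⟨fun x hx => TC_mono h h' (hp.1 hx), hp.2⟩

/-- B4. -/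
theorem st_B4 (hB1 : ST_B1.{u}) (hPL : ST_PL.{u}) : ST_B4.{u} := by
  intro M κ l G hM hI hl hG b hb x hx hxb
  obtain ⟨b1, b2, b3, b4, b5, b6, b7, b8, b9⟩ := hB1 M κ hM.zf hM.wo hI
  have hlM : oz l ∈ M := oz_mem_of_le hM.zf hI.mem hl.le
  have hP : Col l κ ∈ M := Col_mem hM.zf hlM hI.mem
  obtain ⟨τ, hτ, rfl⟩ := hx
  obtain ⟨D, hD, hD'⟩ := st_KD M (Col l κ) hM hP (empty_mem_Col _ _) 1 (.mem 0 1) (fun _ => τ)
    (fun _ => hτ) b hb.1
  obtain ⟨E, hE, hE'⟩ := st_KD M (Col l κ) hM hP (empty_mem_Col _ _) 1 (.neg (.mem 0 1))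
    (fun _ => τ) (fun _ => hτ) b hb.1
  change ∀ x ∈ b, ∀ p ∈ Col l κ, (pair x p ∈ D ↔ ∀ G', IsGeneric M (Col l κ) G' → p ∈ G' →
    x ∈ val G' τ) at hD'
  change ∀ x ∈ b, ∀ p ∈ Col l κ, (pair x p ∈ E ↔ ∀ G', IsGeneric M (Col l κ) G' → p ∈ G' →
    ¬ x ∈ val G' τ) at hE'
  -- deciding
  have hdec : ∀ s ∈ b, ∀ p ∈ Col l κ, ∃ q ∈ Col l κ, p ⊆ q ∧ (pair s q ∈ D ∨ pair s q ∈ E) := by
    intro s hs p hp
    by_cases h : pair s p ∈ D
    · exact ⟨p, hp, subset_rfl, Or.inl h⟩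
    · rw [hD' s hs p hp] at h
      push Not at h
      obtain ⟨G', hG', hp', h⟩ := h
      have hsM := hM.zf.trans b hb.1 s hs
      have hv : ∀ i, (![chk s, τ] : Fin 2 → ZFSet.{u}) i ∈ M := by
        intro i
        fin_cases i
        · exact chk_mem hM.zf hsM
        · exact hτ
      obtain ⟨q, hq, h'⟩ := st_KT M (Col l κ) G' hM hP hG' 2 (.neg (.mem 0 1)) ![chk s, τ] hv (by
        change ¬ val G' (chk s) ∈ val G' τ
        rwa [val_chk' hM hP hG' hsM])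
      obtain ⟨r, hr, hpr, hqr⟩ := hG'.dir p hp' q hq
      refine ⟨r, hG'.sub hr, hpr, Or.inr ((hE' s hs r (hG'.sub hr)).2 (fun G'' hG'' hr' => ?_))⟩
      have := h' G'' hG'' (hG''.up r hr' q (hG'.sub hq) hqr)
      change ¬ val G'' (chk s) ∈ val G'' τ at this
      rwa [val_chk' hM hP hG'' hsM] at this
  -- the relation R
  set R : ZFSet.{u} := ZFSet.sep (fun t => ∀ s ∈ b, ∀ p ∈ Col l (pfst t).rank,
    ∃ q ∈ Col l (psnd t).rank, p ⊆ q ∧ (pair s q ∈ D ∨ pair s q ∈ E)) ((oz κ).prod (oz κ)) with hR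
  have hRM : R ∈ M := by
    have h : U KZ.{u} (fun _ _ (a : (ZFSet.{u} × ZFSet.{u}) × ((ZFSet.{u} × ZFSet.{u}) ×
        ZFSet.{u})) =>
        ZFSet.sep (fun t => ∀ s ∈ a.1.2, ∀ p ∈ Col a.1.1.rank (pfst t).rank,
        ∃ q ∈ Col a.1.1.rank (psnd t).rank, p ⊆ q ∧ (pair s q ∈ a.2.1.1 ∨ pair s q ∈ a.2.1.2))
        (a.2.2.prod a.2.2)) := by
      apply_rules (transparency := .reducible) (maxDepth := 400) using is_poly
    have h2 := in_zfset.1 (h.closed hM.zf (a := ((oz l, b), ((D, E), oz κ))) (by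
      simp [hlM, hb.1, hD, hE, hI.mem]))
    simp only [Ordinal.rank_toZFSet] at h2
    exact h2
  have mR : ∀ a c : Ordinal.{u}, pair (oz a) (oz c) ∈ R ↔ (a < κ ∧ c < κ) ∧ ∀ s ∈ b,
      ∀ p ∈ Col l a, ∃ q ∈ Col l c, p ⊆ q ∧ (pair s q ∈ D ∨ pair s q ∈ E) := by
    intro a c
    rw [hR, ZFSet.mem_sep, pair_mem_prod, pfst_pair, psnd_pair, Ordinal.rank_toZFSet,
      Ordinal.rank_toZFSet, oz_mem_oz, oz_mem_oz]
  have hκ0 : 0 < κ := lt_of_le_of_lt (zero_le) hl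
  have hκl : ∀ a < κ, a + 1 < κ := fun a ha => (b7 a ha).1
  obtain ⟨m, hlm, hmκ, hm⟩ := exists_closed hM.zf hI.mem (fun f hf hfun => by
      exact hI.reg _ hI.gt f hf hfun) hRM (fun a a' c h h' => by
      rw [mR] at h' ⊢
      exact ⟨⟨h.trans_lt h'.1.1, h'.1.2⟩, fun s hs p hp => h'.2 s hs p (Col_mono le_rfl h hp)⟩)
    (fun a ha => by
      -- existence of a bound by regularity
      set F : ZFSet.{u} := ZFSet.sep (fun t => (∃ q ∈ Col l (psnd t).rank, psnd (pfst t) ⊆ q ∧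
        (pair (pfst (pfst t)) q ∈ D ∨ pair (pfst (pfst t)) q ∈ E)) ∧ ∀ y ∈ psnd t,
        ¬ ∃ q ∈ Col l y.rank, psnd (pfst t) ⊆ q ∧ (pair (pfst (pfst t)) q ∈ D ∨
          pair (pfst (pfst t)) q ∈ E)) ((b.prod (Col l a)).prod (oz κ)) with hF
      have haM : oz a ∈ M := oz_mem_of_le hM.zf hI.mem ha.le
      have hFM : F ∈ M := by
        have h : U KZ.{u} (fun _ _ (a : (ZFSet.{u} × ZFSet.{u}) × ((ZFSet.{u} × ZFSet.{u}) ×
            ZFSet.{u})) =>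
            ZFSet.sep (fun t => (∃ q ∈ Col a.1.1.rank (psnd t).rank, psnd (pfst t) ⊆ q ∧
              (pair (pfst (pfst t)) q ∈ a.2.1.1 ∨ pair (pfst (pfst t)) q ∈ a.2.1.2)) ∧
              ∀ y ∈ psnd t, ¬ ∃ q ∈ Col a.1.1.rank y.rank, psnd (pfst t) ⊆ q ∧
                (pair (pfst (pfst t)) q ∈ a.2.1.1 ∨ pair (pfst (pfst t)) q ∈ a.2.1.2))
            (a.1.2.prod a.2.2)) := by
          apply_rules (transparency := .reducible) (maxDepth := 400) using is_poly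
        have h2 := in_zfset.1 (h.closed hM.zf
          (a := ((oz l, b.prod (Col l a)), ((D, E), oz κ))) (by
          simp [hlM, hD, hE, hI.mem, prod_mem hM.zf hb.1 (Col_mem hM.zf hlM haM)]))
        simp only [Ordinal.rank_toZFSet] at h2
        exact h2
      have mF : ∀ (s p : ZFSet.{u}) (y : Ordinal.{u}), pair (pair s p) (oz y) ∈ F ↔
          (s ∈ b ∧ p ∈ Col l a ∧ y < κ) ∧
          (∃ q ∈ Col l y, p ⊆ q ∧ (pair s q ∈ D ∨ pair s q ∈ E)) ∧ ∀ z < y,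
            ¬ ∃ q ∈ Col l z, p ⊆ q ∧ (pair s q ∈ D ∨ pair s q ∈ E) := by
        intro s p y
        rw [hF, ZFSet.mem_sep, pair_mem_prod, pair_mem_prod, oz_mem_oz]
        simp only [pfst_pair, psnd_pair, Ordinal.rank_toZFSet]
        constructor
        · rintro ⟨⟨⟨h1, h2⟩, h3⟩, h4, h5⟩
          refine ⟨⟨h1, h2, h3⟩, h4, fun z hz => ?_⟩
          have := h5 (oz z) (oz_mem_oz.2 hz)
          rwa [Ordinal.rank_toZFSet] at this
        · rintro ⟨⟨h1, h2, h3⟩, h4, h5⟩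
          refine ⟨⟨⟨h1, h2⟩, h3⟩, h4, fun z hz => ?_⟩
          obtain ⟨c, hc, rfl⟩ := mem_oz.1 hz
          rw [Ordinal.rank_toZFSet]
          exact h5 c hc
      obtain ⟨B, hB, hB'⟩ := b9 _ (b2 _ _ hb (b8 l a ha)) F hFM (by
        intro s y z hy hz
        obtain ⟨hy1, _⟩ := ZFSet.mem_sep.1 hy
        obtain ⟨hz1, _⟩ := ZFSet.mem_sep.1 hz
        rw [pair_mem_prod] at hy1 hz1
        obtain ⟨s, hs, p, hp, rfl⟩ := ZFSet.mem_prod.1 hy1.1
        obtain ⟨c, hc, rfl⟩ := mem_oz.1 hy1.2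
        obtain ⟨d, hd, rfl⟩ := mem_oz.1 hz1.2
        rw [mF] at hy hz
        rcases lt_trichotomy c d with h | h | h
        · exact (hz.2.2 _ h hy.2.1).elim
        · rw [h]
        · exact (hy.2.2 _ h hz.2.1).elim)
      refine ⟨max B (a + 1), max_lt hB (hκl a ha), lt_of_lt_of_le (Order.lt_succ a)
        (le_max_right _ _), (mR _ _).2 ⟨⟨ha, max_lt hB (hκl a ha)⟩, fun s hs p hp => ?_⟩⟩
      obtain ⟨q, hq, hpq, hq'⟩ := hdec s hs p (Col_mono le_rfl ha.le hp)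
      obtain ⟨c, hc, hqc⟩ := fin_bound hκl hκ0 hq
      have hne : {c : Ordinal.{u} | c < κ ∧ ∃ q ∈ Col l c, p ⊆ q ∧ (pair s q ∈ D ∨
          pair s q ∈ E)}.Nonempty := ⟨c, hc, q, hqc, hpq, hq'⟩
      have hmin := csInf_mem hne
      obtain ⟨h1, q', h2, h3, h4⟩ := hmin
      have h5 := hB' (pair s p) (pair_mem_prod.2 ⟨hs, hp⟩) _ h1 ((mF _ _ _).2
        ⟨⟨hs, hp, h1⟩, ⟨q', h2, h3, h4⟩, fun z hz hz' => by
          have hz2 : z ∈ {c : Ordinal.{u} | c < κ ∧ ∃ q ∈ Col l c, p ⊆ q ∧ (pair s q ∈ D ∨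
            pair s q ∈ E)} := ⟨hz.trans h1, hz'⟩
          exact absurd (csInf_le' hz2) (not_le.2 hz)⟩)
      exact ⟨q', Col_mono le_rfl (h5.le.trans (le_max_left _ _)) h2, h3, h4⟩) hl
  have hm0 : 0 < m := lt_of_le_of_lt (zero_le) hlm
  have hml : ∀ a < m, a + 1 < m := by
    intro a ha
    obtain ⟨c, hc, hac, _⟩ := hm a ha
    exact lt_of_le_of_lt (Order.succ_le_of_lt hac) hc
  refine ⟨m, hlm.le, hmκ, fun m' hm' hm'κ => ?_⟩
  have hmM : oz m ∈ M := oz_mem_of_le hM.zf hI.mem hmκ.le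
  have hm'M : oz m' ∈ M := oz_mem_of_le hM.zf hI.mem hm'κ.le
  have hG1 : IsGeneric M (Col l m') (G ∩ Col l m') := ((hPL M _ _ _ hM
    (Col_split hM.zf hI.mem (hlm.le.trans hm') hm'κ.le)).1 G hG).1
  have hG0 : IsGeneric M (Col l m) (G ∩ Col l m) := ((hPL M _ _ _ hM
    (Col_split hM.zf hI.mem hlm.le hmκ.le)).1 G hG).1
  have hσ : ZFSet.sep (fun z => z ∈ D) (b.prod (Col l m)) ∈ M := by
    have h : U KZ.{u} (fun _ _ (a : (ZFSet.{u} × ZFSet.{u}) × ZFSet.{u}) =>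
        ZFSet.sep (fun z => z ∈ a.2) (a.1.1.prod a.1.2)) := by
      apply_rules (transparency := .reducible) (maxDepth := 400) using is_poly
    exact in_zfset.1 (h.closed hM.zf (a := ((b, Col l m), D)) (by
      simp [hb.1, Col_mem hM.zf hlM hmM, hD]))
  have hev := (st_KS M (Col l m') (G ∩ Col l m') hM (Col_mem hM.zf hlM hm'M) hG1 b hb.1).1 _ hσ
  have : val G τ = ev b (ZFSet.sep (fun z => z ∈ D) (b.prod (Col l m))) (G ∩ Col l m') := by
    ext s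
    unfold ev
    rw [ZFSet.mem_sep]
    constructor
    · intro hs
      have hsb := hxb hs
      refine ⟨hsb, ?_⟩
      obtain ⟨q, hq, hq'⟩ := hG0.meets (ZFSet.sep (fun q => pair s q ∈ D ∨ pair s q ∈ E)
        (Col l m)) (by
          have h : U KZ.{u} (fun _ _ (a : (ZFSet.{u} × ZFSet.{u}) × (ZFSet.{u} × ZFSet.{u})) =>
              ZFSet.sep (fun q => pair a.1.1 q ∈ a.2.1 ∨ pair a.1.1 q ∈ a.2.2) a.1.2) := by
            apply_rules (transparency := .reducible) (maxDepth := 400) using is_poly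
          exact in_zfset.1 (h.closed hM.zf (a := ((s, Col l m), (D, E))) (by
            simp [hM.zf.trans b hb.1 s hsb, Col_mem hM.zf hlM hmM, hD, hE])))
        (fun x hx => (ZFSet.mem_sep.1 hx).1) (fun p hp => by
          obtain ⟨a, ha, hpa⟩ := fin_bound hml hm0 hp
          obtain ⟨c, hc, hac, hc'⟩ := hm a ha
          obtain ⟨q, hq, hpq, hq'⟩ := ((mR a c).1 hc').2 s hsb p hpa
          exact ⟨q, ZFSet.mem_sep.2 ⟨Col_mono le_rfl hc.le hq, hq'⟩, hpq⟩)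
      obtain ⟨h1, h2⟩ := ZFSet.mem_sep.1 hq'
      have hqG := (ZFSet.mem_inter.1 hq).1
      have hqP : q ∈ Col l κ := hG.sub hqG
      rcases h2 with h2 | h2
      · refine ⟨q, ZFSet.mem_inter.2 ⟨hqG, Col_mono le_rfl hm' h1⟩, ZFSet.mem_sep.2
          ⟨pair_mem_prod.2 ⟨hsb, h1⟩, h2⟩⟩
      · exact ((hE' s hsb q hqP).1 h2 G hG hqG hs).elim
    · rintro ⟨hsb, q, hq, hq'⟩
      obtain ⟨h1, h2⟩ := ZFSet.mem_sep.1 hq'
      have hqG := (ZFSet.mem_inter.1 hq).1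
      exact (hD' s hsb q (hG.sub hqG)).1 h2 G hG hqG
  rw [this]
  exact hev

end Pool.Agent.Helper22.GP
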