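import Pool.Agent.Helper22.GP.L2
import Pool.Agent.Helper76.GP.MB
import Pool.Agent.Helper76.GP.VO

/-! # DF: the decision is definable -/

universe u

namespace Pool.Agent.Helper22.GP

open ZFSet MeasureTheory Pool.Agent.Helper66.SC Pool.Agent.Helper22.SC Pool.Agent.Helper66.GP

variable {M N A : Set ZFSet.{u}}

theorem coin_half (b : Bool) : coin {x : ℕ → Bool | x 0 = b} = 1 / 2 := by
  have h := Measure.infinitePi_pi (μ := fun _ : ℕ => (PMF.uniformOfFintype Bool).toMeasure)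
    (s := {0}) (t := fun _ => {b}) (fun _ _ => MeasurableSet.of_discrete)
  have h2 : ((({0} : Finset ℕ) : Set ℕ).pi (fun _ => ({b} : Set Bool))) =
      {x : ℕ → Bool | x 0 = b} := by
    ext x
    simp
  rw [h2] at h
  unfold coin
  rw [h, Finset.prod_singleton, PMF.toMeasure_apply_singleton _ _ MeasurableSet.of_discrete,
    PMF.uniformOfFintype_apply]
  simp

theorem coin_cyl_lt {n : ℕ} {t : ZFSet.{u}} (b : ZFSet.{u}) (hb : US b ⊆
    Helper76.GP.cyl (n + 1) t) : coin (US b) < 1 := by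
  classical
  have h1 : US b ⊆ {x : ℕ → Bool | x 0 = decide ((nz 0 : ZFSet.{u}) ∈ t)} := by
    intro x hx
    have h2 : rl x ∩ nz (n + 1) = t := hb hx
    have h3 : (nz 0 : ZFSet.{u}) ∈ t ↔ x 0 = true := by
      rw [← h2, ZFSet.mem_inter, Helper76.GP.mem_rl]
      have : (nz 0 : ZFSet.{u}) ∈ nz (n + 1) := Helper76.GP.nzm.2 (Nat.succ_pos n)
      tauto
    change x 0 = decide _
    by_cases h4 : (nz 0 : ZFSet.{u}) ∈ t
    · rw [decide_eq_true h4]
      exact h3.1 h4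
    · rw [decide_eq_false h4]
      by_contra h5
      exact h4 (h3.2 (by simpa using h5))
  refine lt_of_le_of_lt (measure_mono h1) ?_
  rw [coin_half]
  exact ENNReal.half_lt_self one_ne_zero ENNReal.one_ne_top

theorem US_single {n : ℕ} {t : ZFSet.{u}} :
    US ({pair (nz n) t} : ZFSet.{u}) = Helper76.GP.cyl n t := by
  ext x
  rw [Helper76.GP.mem_US]
  constructor
  · rintro ⟨m, hm⟩
    rw [ZFSet.mem_singleton, pair_inj] at hm
    have := Helper76.GP.nzi.1 hm.1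
    subst this
    exact hm.2
  · intro h
    exact ⟨n, by rw [ZFSet.mem_singleton]; exact congrArg _ h⟩

/-- The code of the cylinder of a string. -/
noncomputable def cc (n : ℕ) (t : ZFSet.{u}) : ZFSet.{u} := satu {pair (nz n) t}

theorem single_Str {n : ℕ} {t : ZFSet.{u}} (ht : t ⊆ nz n) : ({pair (nz n) t} : ZFSet.{u}) ⊆
    Str := by
  intro s hs
  rw [ZFSet.mem_singleton.1 hs]
  exact Helper76.GP.mem_Str.2 ⟨n, t, ht, rfl⟩

theorem cc_RB (hM : IsZF M A) {n : ℕ} {t : ZFSet.{u}} (ht : t ⊆ nz (n + 1)) :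
    cc (n + 1) t ∈ RB M := by
  rw [Helper76.GP.mem_RB]
  have h1 : ({pair (nz (n + 1)) t} : ZFSet.{u}) ∈ M := by
    have h2 : pair (nz (n + 1)) t ∈ M := Helper76.GP.VO_mem' hM _
      (Helper76.GP.pair_VO (Helper76.GP.nz_VO _) (Helper76.GP.sub_VO ht (Helper76.GP.nz_VO _)))
    have h : U KZ.{u} (fun _ _ (x : ZFSet.{u}) => ({x} : ZFSet.{u})) := by apply_rules (transparency := .reducible) (maxDepth := 400) using is_poly
    exact in_zfset.1 (h.closed hM (a := pair (nz (n + 1)) t) (by simpa using h2))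
  refine ⟨in_zfset.1 (Helper76.GP.u_satu0.closed hM (a := {pair (nz (n + 1)) t})
    (by simpa using h1)), Helper76.GP.Sd_satu (single_Str ht), ?_⟩
  refine coin_cyl_lt (n := n) (t := t) _ ?_
  unfold cc
  rw [Helper76.GP.US_satu (single_Str ht), US_single]

theorem InU_cc {n : ℕ} {t y : ZFSet.{u}} (ht : t ⊆ nz n) (hy : y ⊆ ZFSet.omega) :
    InU (cc n t) y ↔ y ∩ nz n = t := by
  obtain ⟨x, rfl⟩ := Helper76.GP.exists_rl hy
  change x ∈ US (cc n t) ↔ _
  unfold cc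
  rw [Helper76.GP.US_satu (single_Str ht), US_single]
  rfl

/-- The random real is in the extension. -/
theorem y_mem_ext (hM : Ctm M) (hmu : MuR ∈ M) {y : ZFSet.{u}} (hy : y ⊆ ZFSet.omega)
    (hg : IsGeneric M (RB M) (Fy M y)) : y ∈ Ext M (Fy M y) := by
  have hR := Helper76.GP.RB_mem hM.zf hmu
  have hE := st_KE M _ _ hM hR hg
  have h : U KZ.{u} (fun _ _ (F : ZFSet.{u}) => ZFSet.sep (fun n => ∃ t ∈ VO, t ⊆ insert n n ∧
      n ∈ t ∧ ¬ satu {pair (insert n n) t} ∈ F) ZFSet.omega) := by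
    apply_rules (transparency := .reducible) (maxDepth := 400) using is_poly
  have h2 := in_zfset.1 (h.closed hE.zf (a := Fy M y) (by
    simpa using gen_mem_ext hM hR hg))
  refine Set.mem_of_eq_of_mem ?_ h2
  ext k
  rw [ZFSet.mem_sep]
  have key : ∀ (n : ℕ) (t : ZFSet.{u}), t ⊆ nz (n + 1) → (¬ cc (n + 1) t ∈ Fy M y ↔
      y ∩ nz (n + 1) = t) := by
    intro n t ht
    rw [← InU_cc ht hy]
    unfold Fy
    rw [ZFSet.mem_sep]
    have := cc_RB hM.zf ht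
    tauto
  constructor
  · intro hk
    have hkω := hy hk
    refine ⟨hkω, ?_⟩
    obtain ⟨n, rfl⟩ := mem_omega.1 hkω
    have ht : y ∩ nz (n + 1) ⊆ nz (n + 1) := fun x hx => (ZFSet.mem_inter.1 hx).2
    refine ⟨y ∩ nz (n + 1), Helper76.GP.sub_VO ht (Helper76.GP.nz_VO _), ?_, ?_, ?_⟩
    · rw [← nat_succ]
      exact ht
    · exact ZFSet.mem_inter.2 ⟨hk, Helper76.GP.nzm.2 (Nat.lt_succ_self n)⟩
    · rw [← nat_succ]
      exact (key n _ ht).2 rfl
  · rintro ⟨hkω, t, _, ht, hkt, h3⟩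
    obtain ⟨n, rfl⟩ := mem_omega.1 hkω
    rw [← nat_succ] at ht h3
    have h4 := (key n t ht).1 h3
    rw [← h4] at hkt
    exact (ZFSet.mem_inter.1 hkt).1

theorem Fy_mem {W : Set ZFSet.{u}} (hW : IsZF W A) {y : ZFSet.{u}} (hR : RB M ∈ W)
    (hy : y ∈ W) : Fy M y ∈ W := by
  have h : U KZ.{u} (fun _ _ (p : ZFSet.{u} × ZFSet.{u}) => ZFSet.sep (fun b => ¬ ∃ n ∈ ZFSet.omega,
      pair n (p.2 ∩ n) ∈ b) p.1) := by
    apply_rules (transparency := .reducible) (maxDepth := 400) using is_poly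
  have h2 := in_zfset.1 (h.closed hW (a := (RB M, y)) (by simp [hR, hy]))
  refine Set.mem_of_eq_of_mem ?_ h2
  ext b
  unfold Fy InU
  rw [ZFSet.mem_sep, ZFSet.mem_sep]
  refine and_congr_right (fun _ => not_congr ?_)
  constructor
  · rintro ⟨n, hn⟩
    exact ⟨nz n, nat_mem_omega n, hn⟩
  · rintro ⟨x, hx, hn⟩
    obtain ⟨n, rfl⟩ := mem_omega.1 hx
    exact ⟨n, hn⟩

theorem small_RB (hB1 : ST_B1.{u}) (hM : Ctm M) {κ : Ordinal.{u}} (hI : Inac M κ)
    (hmu : MuR ∈ M) : Small M κ (RB M) := by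
  obtain ⟨b1, b2, b3, b4, b5, b6, b7, b8, b9⟩ := hB1 M κ hM.zf hM.wo hI
  have hVO := Helper76.GP.VO_mem hM.zf
  have h1 : Small M κ VO := by
    refine ⟨hVO, Ordinal.omega0, hI.gt, ?_⟩
    rw [← omega_oz]
    exact (Helper76.GP.st_VO.2.2.2.2.2.2.2.2 M ∅ hM.zf hM.wo).1
  have hStr : Str ∈ M := by
    have := in_zfset.1 ((Helper76.GP.u_Str (α := PUnit.{u + 2})).closed hM.zf
      (a := PUnit.unit) (by simp))
    exact this
  have h2 : Small M κ Str := by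
    refine b4 _ _ h1 hStr (cardLe_subset hM.zf hStr ?_)
    intro s hs
    exact (ZFSet.mem_sep.1 hs).1
  have h3 := b1 _ h2
  have hR := Helper76.GP.RB_mem hM.zf hmu
  refine b4 _ _ h3 hR (cardLe_subset hM.zf hR ?_)
  intro b hb
  exact (ZFSet.mem_sep.1 hb).1

theorem u_gname {α : Type (u + 1)} [Ctx.{u} α]
    {f : Set ZFSet.{u} → Set ZFSet.{u} → α → ZFSet.{u}} (hf : U KZ.{u} f) :
    U KZ.{u} (fun N A a => Helper27.SC.gname (f N A a)) := by
  have : U KZ.{u} (fun _ _ (x : ZFSet.{u}) => Helper27.SC.gname x) := by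
    unfold Helper27.SC.gname
    refine U.img (by apply_rules (transparency := .reducible) (maxDepth := 400) using is_poly) ?_
    refine U.pair (Helper27.SC.u_chk ?_) ?_
    all_goals apply_rules (transparency := .reducible) (maxDepth := 400) using is_poly
  exact this.comp hf

/-- DF. -/
theorem st_DF (hB1 : ST_B1.{u}) (hL2 : ST_L2.{u}) (hL3 : ST_L3.{u}) (hP1 : ST_P1.{u})
    (hDE : ST_DE.{u}) : ST_DF.{u} := by
  intro k φ
  -- the statement in `W`; the variables are `p`, `y`, `v`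
  have hPGu : ∀ {α : Type (u + 1)} [Ctx.{u} α], U KZ.{u} (fun N _ (_ : α) => PG N) := by
    intro α _
    exact hP1.1.comp U.unit
  have hχ : URel KZ.{u} (fun N _ (w : Fin (k + 2) → ZFSet.{u}) =>
      ∃ q ∈ PG N, w 0 ⊆ q ∧ Forces N (PG N) φ (Fin.cons (Helper27.SC.gname (PG N))
        (fun i : Fin (k + 1) => chk (w i.succ))) q) := by
    refine URel.bex hPGu (URel.and (URel.subset (U.id.fst.eval 0) U.id.snd)
      (urel_forces φ hPGu U.id.snd (U.finCons (u_gname hPGu) ?_)))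
    exact U.finMk (fun i => Helper27.SC.u_chk (U.id.fst.eval i.succ))
  obtain ⟨χ, hχ⟩ := hχ
  obtain ⟨ψ, hψ⟩ := hL2 (k + 2) χ
  refine ⟨ψ, ?_⟩
  intro M W κ p y hd v hv H hH hpH
  have hM := hd.ctm
  have hR := Helper76.GP.RB_mem hM.zf hd.mu
  have hW := (st_L6 M κ hM hd.inac).2 W hd.lev
  have hSm := small_RB hB1 hM hd.inac hd.mu
  have hF : Fy M y ∈ W := Fy_mem hW.1.zf (hW.2.1 hR) hd.ymem
  have hM₁ := st_KE M _ _ hM hR hd.rnd
  have hI₁ := (st_B3 hB1 M κ _ _ hM hd.inac hSm hd.rnd).1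
  have hL₁ := hL3 M W κ _ _ hM hd.inac hd.lev hSm hd.rnd hF
  have hyM := y_mem_ext hM hd.mu hd.yom hd.rnd
  have hsub : ∀ x ∈ M, x ∈ Ext M (Fy M y) := fun x hx => sub_ext hM hR hd.rnd hx
  have hw1 : ∀ i, (Fin.cons p (Fin.cons y v) : Fin (k + 2) → ZFSet.{u}) i ∈ Ext M (Fy M y) :=
    cons_mem (hsub p hd.mem) (cons_mem hyM (fun i => hsub _ (hv i)))
  have hyv : ∀ i, (Fin.cons y v : Fin (k + 1) → ZFSet.{u}) i ∈ W :=
    cons_mem hd.ymem (fun i => hW.2.1 (hv i))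
  have hw2 : ∀ i, (Fin.cons p (Fin.cons y v) : Fin (k + 2) → ZFSet.{u}) i ∈ W :=
    cons_mem (hW.2.1 hd.mem) hyv
  rw [← hψ _ W κ hM₁ hI₁ hL₁ _ hw1]
  have h1 := hχ W ∅ hW.1.zf _ (in_fin.2 hw2)
  change _ ↔ Sat W ∅ χ (Fin.cons p (Fin.cons y v)) at h1
  rw [← h1]
  simp only [Fin.cons_zero, Fin.cons_succ]
  have hPG : PG W ∈ W := (hP1.2.2.2.2.2.2.2.2.2 W ∅ hW.1.zf).1
  have hPG0 : ∅ ∈ PG W := (hP1.2.2.2.2.2.2.2.2.2 W ∅ hW.1.zf).2.1
  have truth : ∀ H', IsGeneric W (PG W) H' → (Sat (Ext W H') ∅ φ (Fin.cons H' (Fin.cons y v)) ↔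
      ∃ q ∈ H', Forces W (PG W) φ (Fin.cons (Helper27.SC.gname (PG W))
        (fun i : Fin (k + 1) => chk ((Fin.cons y v : Fin (k + 1) → ZFSet.{u}) i))) q) := by
    intro H' hH'
    have h2 := FB2 W ∅ (PG W) H' hW.1.zf hPG hH' (k + 2) φ (Fin.cons (Helper27.SC.gname (PG W))
        (fun i : Fin (k + 1) => chk ((Fin.cons y v : Fin (k + 1) → ZFSet.{u}) i)))
        (cons_mem (Helper27.SC.gname_memM hW.1.zf hPG) (fun i => chk_mem hW.1.zf (hyv i)))
    rw [← h2]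
    have h3 : (fun i => val H' ((Fin.cons (Helper27.SC.gname (PG W))
        (fun i : Fin (k + 1) => chk ((Fin.cons y v : Fin (k + 1) → ZFSet.{u}) i)) :
          Fin (k + 2) → ZFSet.{u}) i)) = Fin.cons H' (Fin.cons y v) := by
      funext i
      refine Fin.cases ?_ (fun j => ?_) i
      · exact Helper27.SC.val_gname hH'.top hH'.sub
      · exact val_chk' hW.1 hPG hH' (hyv j)
    rw [h3]
  constructor
  · intro hs
    obtain ⟨q, hq, hqf⟩ := (truth H hH).1 hs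
    obtain ⟨r, hr, hpr, hqr⟩ := hH.dir p hpH q hq
    exact ⟨r, hH.sub hr, hpr, (FB2a W (PG W) _ φ _).1 q (hH.sub hq) r (hH.sub hr) hqr hqf⟩
  · rintro ⟨q, hq, hpq, hqf⟩
    obtain ⟨H', hH', hqH'⟩ := exists_generic hW.1 hPG hPG0 hq
    have hpH' : p ∈ H' := hH'.up q hqH' p (hH.sub hpH) hpq
    have hs := (truth H' hH').2 ⟨q, hqH', hqf⟩
    exact (hDE k φ M W κ p y hd v hv H' H hH' hH hpH' hpH).1 hs

end Pool.Agent.Helper22.GP
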