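import Pool.Agent.Helper22.GP.DF

/-! # DN: density of good conditions -/

universe u

namespace Pool.Agent.Helper22.GP

open ZFSet MeasureTheory Pool.Agent.Helper66.SC Pool.Agent.Helper22.SC Pool.Agent.Helper66.GP

variable {M N A : Set ZFSet.{u}}

theorem u_ev {α : Type (u + 1)} [Ctx.{u} α]
    {f g h : Set ZFSet.{u} → Set ZFSet.{u} → α → ZFSet.{u}} (hf : U KZ.{u} f) (hg : U KZ.{u} g)
    (hh : U KZ.{u} h) : U KZ.{u} (fun N A a => ev (f N A a) (g N A a) (h N A a)) := by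
  have h0 : U KZ.{u} (fun _ _ (p : (ZFSet.{u} × ZFSet.{u}) × ZFSet.{u}) =>
      ev p.1.1 p.1.2 p.2) := by
    unfold ev
    apply_rules (transparency := .reducible) (maxDepth := 400) using is_poly
  exact h0.comp ((hf.prodMk hg).prodMk hh)

attribute [is_poly] u_ev

/-- The reals of the stage `β`. -/
noncomputable def Rb (J G l β : ZFSet.{u}) : ZFSet.{u} :=
  Helper66.SC.img J (fun σ => ev VO σ (G ∩ Col l.rank β.rank))

theorem u_Rb {α : Type (u + 1)} [Ctx.{u} α]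
    {f g h k : Set ZFSet.{u} → Set ZFSet.{u} → α → ZFSet.{u}} (hf : U KZ.{u} f) (hg : U KZ.{u} g)
    (hh : U KZ.{u} h) (hk : U KZ.{u} k) :
    U KZ.{u} (fun N A a => Rb (f N A a) (g N A a) (h N A a) (k N A a)) := by
  have h0 : U KZ.{u} (fun _ _ (p : (ZFSet.{u} × ZFSet.{u}) × (ZFSet.{u} × ZFSet.{u})) =>
      Rb p.1.1 p.1.2 p.2.1 p.2.2) := by
    unfold Rb
    apply_rules (transparency := .reducible) (maxDepth := 400) using is_poly
  exact h0.comp ((hf.prodMk hg).prodMk (hh.prodMk hk))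

attribute [is_poly] u_Rb

structure Stage (M W : Set ZFSet.{u}) (κ : Ordinal.{u}) (N : Set ZFSet.{u}) (J G l β : ZFSet.{u}) :
    Prop where
  ctm : Ctm N
  sub : M ⊆ N
  sup : N ⊆ W
  inac : Inac N κ
  lev : Lev N κ W
  rl : Rb J G l β = Rl N
  ctb : CardLe W (Rl N) ZFSet.omega

theorem stage (hB1 : ST_B1.{u}) (hPL : ST_PL.{u}) (hM : Ctm M) {κ l β : Ordinal.{u}}
    (hI : Inac M κ) {G : ZFSet.{u}} (hG : IsGeneric M (Col l κ) G) (hl : l ≤ β) (hβ : β < κ) :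
    Stage M (Ext M G) κ (Ext M (G ∩ Col l β)) (PW M (VO.prod (Col l κ))) G (oz l) (oz β) := by
  have hβM : oz β ∈ M := oz_mem_of_le hM.zf hI.mem hβ.le
  have hlM : oz l ∈ M := oz_mem_of_le hM.zf hβM hl
  obtain ⟨b1, b2, b3, b4, b5, b6, b7, b8, b9⟩ := hB1 M κ hM.zf hM.wo hI
  obtain ⟨h1, h2, h3⟩ := (hPL M _ _ _ hM (Col_split hM.zf hI.mem hl hβ.le)).1 G hG
  have hC : Col l β ∈ M := Col_mem hM.zf hlM hβM
  have hCκ : Col l κ ∈ M := Col_mem hM.zf hlM hI.mem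
  have hE := st_KE M _ _ hM hC h1
  have hW := st_KE M _ _ hM hCκ hG
  have hsub : ∀ x ∈ M, x ∈ Ext M (G ∩ Col l β) := fun x hx => sub_ext hM hC h1 hx
  have hI' := (st_B3 hB1 M κ _ _ hM hI (b8 l β hβ) h1).1
  have hVO := Helper76.GP.VO_mem hM.zf
  have hlev : Lev (Ext M (G ∩ Col l β)) κ (Ext M G) := ⟨β, _, hβ, h2, h3.symm⟩
  refine ⟨hE, hsub, ?_, hI', hlev, ?_, ?_⟩
  · rw [← h3]
    intro x hx
    exact sub_ext hE (Col_mem hE.zf (hsub _ hβM) (hsub _ hI.mem)) h2 hx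
  · ext x
    unfold Rb
    rw [mem_img, Ordinal.rank_toZFSet, Ordinal.rank_toZFSet, Helper76.GP.mem_Rl]
    constructor
    · rintro ⟨σ, hσ, rfl⟩
      refine ⟨fun s hs => (ZFSet.mem_sep.1 hs).1, ?_⟩
      exact (st_KS M _ _ hM hC h1 VO hVO).1 σ (mem_Pow.1 hσ).1
    · rintro ⟨hx, hxE⟩
      obtain ⟨σ, hσ, hσ', rfl⟩ := (st_KS M _ _ hM hC h1 VO hVO).2 x hxE hx
      refine ⟨σ, mem_Pow.2 ⟨hσ, fun t ht => ?_⟩, rfl⟩
      obtain ⟨a, ha, b, hb, rfl⟩ := ZFSet.mem_prod.1 (hσ' ht)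
      exact pair_mem_prod.2 ⟨ha, Col_mono le_rfl hβ.le hb⟩
  · have hsm : Small (Ext M (G ∩ Col l β)) κ (Rl (Ext M (G ∩ Col l β))) := by
      obtain ⟨c1, _⟩ := hB1 _ κ hE.zf hE.wo hI'
      refine c1 VO ⟨hsub _ hVO, Ordinal.omega0, hI.gt, ?_⟩
      rw [← omega_oz]
      exact (Helper76.GP.st_VO.2.2.2.2.2.2.2.2 _ ∅ hE.zf hE.wo).1
    exact ((st_L6 _ κ hE hI').2 _ hlev).2.2.2 _ hsm

/-- DN. -/
theorem st_DN (hB1 : ST_B1.{u}) (hPL : ST_PL.{u}) (hP1 : ST_P1.{u}) (hP2 : ST_P2.{u})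
    (hCD : ST_CD.{u}) : ST_DN.{u} := by
  rintro M W κ H hM hI ⟨l, G, hl, hG, rfl⟩ hH c hc
  obtain ⟨d, hdu, hd⟩ := hCD
  have hlM : oz l ∈ M := oz_mem_of_le hM.zf hI.mem hl.le
  have hCκ : Col l κ ∈ M := Col_mem hM.zf hlM hI.mem
  have hW := st_KE M _ _ hM hCκ hG
  have hMW : ∀ x ∈ M, x ∈ Ext M G := fun x hx => sub_ext hM hCκ hG hx
  have hVO := Helper76.GP.VO_mem hM.zf
  obtain ⟨b1, b2, b3, b4, b5, b6, b7, b8, b9⟩ := hB1 M κ hM.zf hM.wo hI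
  have hVOs : Small M κ VO := by
    refine ⟨hVO, Ordinal.omega0, hI.gt, ?_⟩
    rw [← omega_oz]
    exact (Helper76.GP.st_VO.2.2.2.2.2.2.2.2 _ ∅ hM.zf hM.wo).1
  have hin : ∀ c ∈ Rl (Ext M G), ∃ m, l ≤ m ∧ m < κ ∧ ∀ m', m ≤ m' → m' < κ →
      c ∈ Ext M (G ∩ Col l m') := by
    intro c hc
    obtain ⟨h1, h2⟩ := Helper76.GP.mem_Rl.1 hc
    exact st_B4 hB1 hPL M κ l G hM hI hl hG VO hVOs c h2 h1
  obtain ⟨β₀, hlβ, hβκ, hβ₀⟩ := hin c hc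
  set J : ZFSet.{u} := PW M (VO.prod (Col l κ)) with hJ
  have hJM : J ∈ M := Pow_mem hM.zf (prod_mem hM.zf hVO hCκ)
  have hβ₀M : oz β₀ ∈ M := oz_mem_of_le hM.zf hI.mem hβκ.le
  obtain ⟨uPG, uRl, uCP, uXt, upar, uAR, uIsP, uFF, uLeF, hPG⟩ := hP1
  obtain ⟨hPGM, hPG0, hPGm⟩ := hPG (Ext M G) ∅ hW.zf
  have uX : ∀ {α : Type (u + 1)} [Ctx.{u} α]
      {f g : Set ZFSet.{u} → Set ZFSet.{u} → α → ZFSet.{u}}, U KZ.{u} f → U KZ.{u} g →
      U KZ.{u} (fun N A a => Xt (f N A a) (g N A a)) := by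
    intro α _ f g hf hg
    exact uXt.comp (f := fun N A a => (f N A a, g N A a)) (hf.prodMk hg)
  have uD : ∀ {α : Type (u + 1)} [Ctx.{u} α]
      {f : Set ZFSet.{u} → Set ZFSet.{u} → α → ZFSet.{u}}, U KZ.{u} f →
      U KZ.{u} (fun N A a => d (f N A a)) := by
    intro α _ f hf
    exact hdu.comp (f := f) hf
  have uF : ∀ {α : Type (u + 1)} [Ctx.{u} α]
      {f : Set ZFSet.{u} → Set ZFSet.{u} → α → ZFSet.{u}}, U KZ.{u} f →
      URel KZ.{u} (fun N A a => FF (f N A a)) := by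
    intro α _ f hf
    exact uFF.comp (f := f) hf
  -- the dense set
  set D : ZFSet.{u} := ZFSet.sep (fun p => ∃ β ∈ oz κ, oz β₀ ⊆ β ∧ ∃ c' ∈ Rb J G (oz l) β,
    d c' ∈ PG (Ext M G) ∧ p = Xt (d c') (ZFSet.sep (fun x => FF x) (Rb J G (oz l) β)))
    (PG (Ext M G)) with hD
  have hDM : D ∈ Ext M G := by
    have u1 : ∀ {α : Type (u + 1)} [Ctx.{u} α], U KZ.{u} (fun N _ (_ : α) => PG N) := by
      intro α _
      exact uPG.comp U.unit
    have h : U KZ.{u} (fun N _ (t : (ZFSet.{u} × ZFSet.{u}) × ((ZFSet.{u} × ZFSet.{u}) ×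
        ZFSet.{u})) => ZFSet.sep (fun p => ∃ β ∈ t.1.1, t.1.2 ⊆ β ∧
          ∃ c' ∈ Rb t.2.1.1 t.2.1.2 t.2.2 β,
          d c' ∈ PG N ∧ p = Xt (d c') (ZFSet.sep (fun x => FF x) (Rb t.2.1.1 t.2.1.2 t.2.2 β)))
        (PG N)) := by
      refine U.sep u1 ?_
      refine URel.bex (by apply_rules (transparency := .reducible) (maxDepth := 400) using is_poly) (URel.and (by apply_rules (transparency := .reducible) (maxDepth := 400) using is_poly) (URel.bex (by apply_rules (transparency := .reducible) (maxDepth := 400) using is_poly) (URel.and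
        (URel.mem (uD ?_) u1) (URel.eq (by apply_rules (transparency := .reducible) (maxDepth := 400) using is_poly) (uX (uD ?_) (U.sep ?_ (uF ?_)))))))
      all_goals apply_rules (transparency := .reducible) (maxDepth := 400) using is_poly
    exact in_zfset.1 (h.closed hW.zf (a := ((oz κ, oz β₀), ((J, G), oz l))) (by
      simp [hMW _ hI.mem, hMW _ hβ₀M, hMW _ hJM, hMW _ hlM, gen_mem_ext hM hCκ hG]))
  -- facts on the functions of a stage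
  have hP2' : ∀ β, l ≤ β → β < κ → ∀ q, IsP (Ext M G) q →
      (IsP (Ext M G) (Xt q (ZFSet.sep (fun x => FF x) (Rb J G (oz l) (oz β)))) ∧
      ∀ x ∈ Ext M (G ∩ Col l β), FF x →
        ∃ s, pair x s ∈ Xt q (ZFSet.sep (fun x => FF x) (Rb J G (oz l) (oz β)))) := by
    intro β h1 h2 q hq
    have hS := stage hB1 hPL hM hI hG h1 h2
    have ha : ZFSet.sep (fun x => FF x) (Rb J G (oz l) (oz β)) ∈ Ext M (G ∩ Col l β) := by
      rw [hS.rl]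
      have h : U KZ.{u} (fun N _ (_ : PUnit.{u + 2}) => ZFSet.sep (fun x => FF x) (Rl N)) :=
        U.sep uRl (uF (by apply_rules (transparency := .reducible) (maxDepth := 400) using is_poly))
      exact in_zfset.1 (h.closed hS.ctm.zf (a := PUnit.unit) (by simp))
    have hac : CardLe (Ext M G) (ZFSet.sep (fun x => FF x) (Rb J G (oz l) (oz β)))
        ZFSet.omega := by
      refine cardLe_trans hW.zf (hS.sup ha) (cardLe_subset hW.zf (hS.sup ha) ?_) hS.ctb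
      rw [hS.rl]
      intro x hx
      exact (ZFSet.mem_sep.1 hx).1
    obtain ⟨h3, _, h4⟩ := hP2 (Ext M G) ∅ hW.zf hW.wo q _ hq (hS.sup ha) hac
      (fun x hx => (ZFSet.mem_sep.1 hx).2)
    refine ⟨h3, fun x hx hF => h4 x (ZFSet.mem_sep.2 ⟨?_, hF⟩)⟩
    rw [hS.rl]
    exact Helper76.GP.mem_Rl.2 ⟨Helper76.GP.FF_VO hF, hx⟩
  obtain ⟨p, hpH, hpD⟩ := hH.meets D hDM (fun x hx => (ZFSet.mem_sep.1 hx).1) (by
    intro q hq
    have hqP := (hPGm q).1 hq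
    obtain ⟨c₁, hc₁, hdc⟩ := hd (Ext M G) hW.zf hW.wo q hqP
    obtain ⟨β₁, hlβ₁, hβ₁κ, hβ₁⟩ := hin c₁ hc₁
    have hlm : l ≤ max β₀ β₁ := hlβ.trans (le_max_left _ _)
    have hmκ : max β₀ β₁ < κ := max_lt hβκ hβ₁κ
    obtain ⟨h1, h2⟩ := hP2' (max β₀ β₁) hlm hmκ q hqP
    refine ⟨_, ZFSet.mem_sep.2 ⟨(hPGm _).2 h1, oz (max β₀ β₁), oz_mem_oz.2 hmκ,
      oz_sub_oz.2 (le_max_left _ _), c₁, ?_, ?_, ?_⟩, ?_⟩
    · rw [(stage hB1 hPL hM hI hG hlm hmκ).rl]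
      exact Helper76.GP.mem_Rl.2 ⟨(Helper76.GP.mem_Rl.1 hc₁).1, hβ₁ _ (le_max_right _ _) hmκ⟩
    · rw [hdc]
      exact hq
    · rw [hdc]
    · intro x hx
      unfold Xt
      exact ZFSet.mem_union.2 (Or.inl hx))
  obtain ⟨_, b, hb, hβb, c', hc', hdc, hp⟩ := ZFSet.mem_sep.1 hpD
  obtain ⟨β, hβκ', rfl⟩ := mem_oz.1 hb
  have hβ₀β : β₀ ≤ β := oz_sub_oz.1 hβb
  have hlβ' : l ≤ β := hlβ.trans hβ₀β
  have hS := stage hB1 hPL hM hI hG hlβ' hβκ'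
  rw [← hJ] at hS
  obtain ⟨h1, h2⟩ := hP2' β hlβ' hβκ' (d c') ((hPGm _).1 hdc)
  refine ⟨Ext M (G ∩ Col l β), p, hS.ctm, hS.sub, hS.inac, hS.lev, hβ₀ β hβ₀β hβκ', ?_, hpH, ?_⟩
  · have h : U KZ.{u} (fun N _ (c' : ZFSet.{u}) => Xt (d c') (ZFSet.sep (fun x => FF x)
        (Rl N))) := uX hdu (U.sep (uRl.comp U.unit) (uF (by apply_rules (transparency := .reducible) (maxDepth := 400) using is_poly)))
    rw [hS.rl] at hc'
    have h3 := in_zfset.1 (h.closed hS.ctm.zf (a := c')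
      (by simpa using (Helper76.GP.mem_Rl.1 hc').2))
    rw [hp, hS.rl]
    exact h3
  · intro x hx hF
    rw [hp]
    exact h2 x hx hF

end Pool.Agent.Helper22.GP
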