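import Pool.Agent.Helper22.GP.L3456
import Pool.Agent.Helper70.SC.F1

/-! # L2: truth in Levy extensions is definable -/

universe u

namespace Pool.Agent.Helper22.GP

open ZFSet Pool.Agent.Helper66.SC Pool.Agent.Helper22.SC Pool.Agent.Helper66.GP

variable {M N A : Set ZFSet.{u}}

theorem urel_forces {α : Type (u + 1)} [Ctx.{u} α] {k : ℕ} (φ : Fml k)
    {f g : Set ZFSet.{u} → Set ZFSet.{u} → α → ZFSet.{u}}
    {h : Set ZFSet.{u} → Set ZFSet.{u} → α → (Fin k → ZFSet.{u})} (hf : U KZ.{u} f)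
    (hg : U KZ.{u} g) (hh : U KZ.{u} h) :
    URel KZ.{u} (fun N A a => Forces N (f N A a) φ (h N A a) (g N A a)) := by
  have h3 : URel KZ.{u} (fun M _ (w : Fin (k + 2) → ZFSet.{u}) =>
      Forces M (w 1) φ (Fin.tail (Fin.tail w)) (w 0)) :=
    (ud_iff (C := KZ.{u})).1 (show UD KZ.{u} (k := k + 2) (fun M _ w =>
      Forces M (w 1) φ (Fin.tail (Fin.tail w)) (w 0)) from FB3 k φ)
  exact h3.comp (U.finCons hg (U.finCons hf hh))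

/-- Truth lemma for canonical names. -/
theorem truth_chk (hM : Ctm M) {P G : ZFSet.{u}} (hP : P ∈ M) (hG : IsGeneric M P G) {k : ℕ}
    (φ : Fml k) {v : Fin k → ZFSet.{u}} (hv : ∀ i, v i ∈ M) :
    Sat (Ext M G) ∅ φ v ↔ ∃ p ∈ G, Forces M P φ (fun i => chk (v i)) p := by
  have h := FB2 M ∅ P G hM.zf hP hG k φ (fun i => chk (v i)) (fun i => chk_mem hM.zf (hv i))
  rw [← h]
  have : (fun i => val G (chk (v i))) = v := by
    funext i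
    exact val_chk' hM hP hG (hv i)
  rw [this]

theorem homog_sat (hM : Ctm M) {P G₁ G₂ : ZFSet.{u}} (hP : P ∈ M) (hh : Homog M P)
    (h1 : IsGeneric M P G₁) (h2 : IsGeneric M P G₂) {k : ℕ} (φ : Fml k) {v : Fin k → ZFSet.{u}}
    (hv : ∀ i, v i ∈ M) (hs : Sat (Ext M G₁) ∅ φ v) : Sat (Ext M G₂) ∅ φ v := by
  by_contra hneg
  have h0 : ∅ ∈ P := h1.sub h1.top
  obtain ⟨p, hp, hpf⟩ := (truth_chk hM hP h1 φ hv).1 hs
  obtain ⟨q, hq, hqf⟩ := (truth_chk hM hP h2 (.neg φ) hv).1 hneg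
  obtain ⟨π, hπ, haut, p', hpp', r, hr, hpr, hqr⟩ := hh p (h1.sub hp) q (h2.sub hq)
  obtain ⟨H, hH, hrH⟩ := exists_generic hM hP h0 hr
  have hqH : q ∈ H := hH.up r hrH q (h2.sub hq) hqr
  have hp'H : p' ∈ H := hH.up r hrH p' (haut.mem_P hpp').2 hpr
  have h3 : Sat (Ext M H) ∅ (.neg φ) v := (truth_chk hM hP hH (.neg φ) hv).2 ⟨q, hqH, hqf⟩
  have hg := Helper70.SC.generic_pre hM.zf hP h0 hπ haut hH
  have h4 : Sat (Ext M (Helper70.SC.pre P π H)) ∅ φ v :=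
    (truth_chk hM hP hg φ hv).2 ⟨p, (Helper70.SC.mem_pre haut).2 ⟨p', hp'H, hpp'⟩, hpf⟩
  rw [Helper70.SC.ext_pre FB1 FB1e FB4 hM.zf hP h0 hπ haut hH] at h4
  exact h3 h4

theorem lev_sat (hB2 : ST_B2.{u}) (hL1 : ST_L1.{u}) (hM : Ctm M) {κ : Ordinal.{u}}
    (hI : Inac M κ) {W W' : Set ZFSet.{u}} (hW : Lev M κ W) (hW' : Lev M κ W') {k : ℕ}
    (φ : Fml k) {v : Fin k → ZFSet.{u}} (hv : ∀ i, v i ∈ M) (hs : Sat W ∅ φ v) :
    Sat W' ∅ φ v := by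
  obtain ⟨l, G, hl, hG, rfl⟩ := hW
  obtain ⟨l', G', hl', hG', rfl⟩ := hW'
  have hE : Small M κ ∅ := by
    refine ⟨hM.zf.empty_mem, 0, lt_of_le_of_lt (zero_le) hl, ?_⟩
    exact cardLe_subset hM.zf hM.zf.empty_mem (ZFSet.empty_subset _)
  obtain ⟨m, hlm, hmκ, _, hgd⟩ := hB2 M κ hM.zf hM.wo hI ∅ hE (max l l') (max_lt hl hl')
  obtain ⟨G₁, hG₁, hE₁⟩ := hL1 M κ l m G hM hI ((le_max_left _ _).trans hlm.le) hmκ hgd hG
  obtain ⟨G₂, hG₂, hE₂⟩ := hL1 M κ l' m G' hM hI ((le_max_right _ _).trans hlm.le) hmκ hgd hG'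
  rw [hE₁] at hs
  rw [hE₂]
  have hmM : oz m ∈ M := oz_mem_of_le hM.zf hI.mem hmκ.le
  exact homog_sat hM (Col_mem hM.zf hmM hI.mem) (Col_homog hM.zf hmM hI.mem) hG₁ hG₂ φ hv hs

/-- L2. -/
theorem st_L2 (hB2 : ST_B2.{u}) (hL1 : ST_L1.{u}) : ST_L2.{u} := by
  intro k φ
  have h : URel KZ.{u} (fun N _ (w : Fin (k + 1) → ZFSet.{u}) =>
      ∃ p ∈ Col (∅ : ZFSet.{u}).rank (w 0).rank,
        Forces N (Col (∅ : ZFSet.{u}).rank (w 0).rank) φ (fun i => chk (w i.succ)) p) := by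
    refine URel.bex ?_ (urel_forces φ ?_ ?_ ?_)
    · exact U.Col U.empty (U.id.eval 0)
    · exact U.Col U.empty (U.id.fst.eval 0)
    · exact U.id.snd
    · exact U.finMk (fun i => Helper27.SC.u_chk (U.id.fst.eval i.succ))
  obtain ⟨ψ, hψ⟩ := h
  refine ⟨ψ, fun M W κ hM hI hW v hv => ?_⟩
  have hc : In M (Fin.cons (oz κ) v : Fin (k + 1) → ZFSet.{u}) := by
    intro i
    exact cons_mem hI.mem hv i
  have h1 := hψ M ∅ hM.zf _ hc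
  change _ ↔ Sat M ∅ ψ (Fin.cons (oz κ) v) at h1
  rw [← h1]
  have hκ0 : 0 < κ := lt_of_le_of_lt (zero_le) hI.gt
  have h0 : oz 0 ∈ M := oz_mem_of_le hM.zf hI.mem (zero_le)
  have hP : Col 0 κ ∈ M := Col_mem hM.zf h0 hI.mem
  simp only [Fin.cons_zero, Fin.cons_succ, Ordinal.rank_toZFSet, ZFSet.rank_empty]
  constructor
  · intro hs
    obtain ⟨G, hG, _⟩ := exists_generic hM hP (empty_mem_Col _ _) (empty_mem_Col _ _)
    have hs' : Sat (Ext M G) ∅ φ v := lev_sat hB2 hL1 hM hI hW ⟨0, G, hκ0, hG, rfl⟩ φ hv hs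
    obtain ⟨p, hp, hpf⟩ := (truth_chk hM hP hG φ hv).1 hs'
    exact ⟨p, hG.sub hp, hpf⟩
  · rintro ⟨p, hp, hpf⟩
    obtain ⟨G, hG, hpG⟩ := exists_generic hM hP (empty_mem_Col _ _) hp
    have hs' : Sat (Ext M G) ∅ φ v := (truth_chk hM hP hG φ hv).2 ⟨p, hpG, hpf⟩
    exact lev_sat hB2 hL1 hM hI ⟨0, G, hκ0, hG, rfl⟩ hW φ hv hs'

end Pool.Agent.Helper22.GP
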