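import Pool.Agent.Helper22.GP.B345

/-! # L3, L4, L5, L6 -/

universe u

namespace Pool.Agent.Helper22.GP

open ZFSet Pool.Agent.Helper66.SC Pool.Agent.Helper22.SC Pool.Agent.Helper66.GP

variable {M N A : Set ZFSet.{u}}

theorem lev_split (hPL : ST_PL.{u}) (hM : Ctm M) {l m k : Ordinal.{u}} {G : ZFSet.{u}}
    (hk : oz k ∈ M) (hlm : l ≤ m) (hmk : m + 1 ≤ k) (hG : IsGeneric M (Col l k) G) :
    ∃ K g h, K = G ∩ Col l m ∧ IsGeneric M (Col l m) K ∧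
      IsGeneric (Ext M K) (Col m (m + 1)) g ∧
      IsGeneric (Ext (Ext M K) g) (Col (m + 1) k) h ∧ Ext (Ext (Ext M K) g) h = Ext M G := by
  have hmk' : m ≤ k := (Order.le_succ m).trans hmk
  have hmM : oz m ∈ M := oz_mem_of_le hM.zf hk hmk'
  have hlM : oz l ∈ M := oz_mem_of_le hM.zf hmM hlm
  obtain ⟨h1, h2, h3⟩ := (hPL M _ _ _ hM (Col_split hM.zf hk hlm hmk')).1 G hG
  have hC : Col l m ∈ M := Col_mem hM.zf hlM hmM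
  have hE := st_KE M _ _ hM hC h1
  have hkE : oz k ∈ Ext M (G ∩ Col l m) := sub_ext hM hC h1 hk
  obtain ⟨h4, h5, h6⟩ := (hPL _ _ _ _ hE (Col_split hE.zf hkE (Order.le_succ m) hmk)).1 _ h2
  exact ⟨_, _, _, rfl, h1, h4, h5, h6.trans h3⟩

theorem lev_join (hPL : ST_PL.{u}) (hM : Ctm M) {m k : Ordinal.{u}} {g h : ZFSet.{u}}
    (hk : oz k ∈ M) (hmk : m + 1 ≤ k) (hg : IsGeneric M (Col m (m + 1)) g)
    (hh : IsGeneric (Ext M g) (Col (m + 1) k) h) :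
    ∃ G, IsGeneric M (Col m k) G ∧ Ext M G = Ext (Ext M g) h := by
  obtain ⟨G, hG, _, _, h4⟩ := (hPL M _ _ _ hM (Col_split hM.zf hk (Order.le_succ m) hmk)).2
    g h hg hh
  exact ⟨G, hG, h4.symm⟩

theorem gd_mono (h : ∀ x ∈ M, x ∈ N) {m : Ordinal.{u}} (hm : Gd M m) : Gd N m :=
  ⟨hm.1, cardLe_mono h hm.2.1, cardLe_mono h hm.2.2⟩

/-- L6. -/
theorem st_L6 : ST_L6.{u} := by
  intro M κ hM hI
  have h0 : oz 0 ∈ M := oz_mem_of_le hM.zf hI.mem (zero_le)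
  have hκ0 : 0 < κ := lt_of_le_of_lt (zero_le) hI.gt
  refine ⟨?_, ?_⟩
  · obtain ⟨G, hG, _⟩ := exists_generic hM (Col_mem hM.zf h0 hI.mem) (empty_mem_Col _ _)
      (empty_mem_Col _ _)
    exact ⟨_, 0, G, hκ0, hG, rfl⟩
  · rintro W ⟨l, G, hl, hG, rfl⟩
    have hP : Col l κ ∈ M := Col_mem hM.zf (oz_mem_of_le hM.zf hI.mem hl.le) hI.mem
    exact ⟨st_KE M _ G hM hP hG, fun x hx => sub_ext hM hP hG hx, ext_ord hM hP hG,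
      st_B5 M κ l G hM hI hl hG⟩

/-- L5. -/
theorem st_L5 (hB1 : ST_B1.{u}) (hPL : ST_PL.{u}) : ST_L5.{u} := by
  rintro M W κ hM hI ⟨l, G, hl, hG, rfl⟩ b hb x hx hxb
  obtain ⟨b1, b2, b3, b4, b5, b6, b7, b8, b9⟩ := hB1 M κ hM.zf hM.wo hI
  obtain ⟨m, hlm, hmκ, h⟩ := st_B4 hB1 hPL M κ l G hM hI hl hG b hb x hx hxb
  have hmM : oz m ∈ M := oz_mem_of_le hM.zf hI.mem hmκ.le
  obtain ⟨h1, h2, h3⟩ := (hPL M _ _ _ hM (Col_split hM.zf hI.mem hlm hmκ.le)).1 G hG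
  have hC : Col l m ∈ M := Col_mem hM.zf (oz_mem_of_le hM.zf hmM hlm) hmM
  have hE := st_KE M _ _ hM hC h1
  have hmE : oz m ∈ Ext M (G ∩ Col l m) := sub_ext hM hC h1 hmM
  have hκE : oz κ ∈ Ext M (G ∩ Col l m) := sub_ext hM hC h1 hI.mem
  refine ⟨_, _, b8 l m hmκ, h1, ?_, h m le_rfl hmκ, m, _, hmκ, h2, h3.symm⟩
  rw [← h3]
  exact sub_ext hE (Col_mem hE.zf hmE hκE) h2 (gen_mem_ext hM hC h1)

/-- L3. -/
theorem st_L3 (hB1 : ST_B1.{u}) (hB2 : ST_B2.{u}) (hPL : ST_PL.{u}) (hQU : ST_QU.{u})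
    (hABS : ST_ABS.{u}) : ST_L3.{u} := by
  rintro M W κ B F hM hI ⟨l, G, hl, hG, rfl⟩ hB hF hFW
  obtain ⟨m₀, hlm₀, hm₀κ, h⟩ := st_B4 hB1 hPL M κ l G hM hI hl hG B hB F hFW hF.sub
  obtain ⟨m, hm₀m, hmκ, _, hgd⟩ := hB2 M κ hM.zf hM.wo hI B hB m₀ hm₀κ
  have hmκ1 : m + 1 ≤ κ := Order.succ_le_of_lt hmκ
  have hlm : l ≤ m := hlm₀.trans hm₀m.le
  have hmM : oz m ∈ M := oz_mem_of_le hM.zf hI.mem hmκ.le
  have hm1M : oz (m + 1) ∈ M := oz_mem_of_le hM.zf hI.mem hmκ1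
  have hlM : oz l ∈ M := oz_mem_of_le hM.zf hmM hlm
  have hC : Col l m ∈ M := Col_mem hM.zf hlM hmM
  obtain ⟨K, g, h', hK, hKg, hg, hh, hE⟩ := lev_split hPL hM hI.mem hlm hmκ1 hG
  have hFK : F ∈ Ext M K := by
    rw [hK]
    exact h m hm₀m.le hmκ
  obtain ⟨Q, hQ, hQC, hQK, hQE⟩ := hQU M (Col l m) K B F hM hC hKg hB.1 hF hFK
  have hMF := st_KE M B F hM hB.1 hF
  have hsub : ∀ x ∈ M, x ∈ Ext M F := fun x hx => sub_ext hM hB.1 hF hx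
  have hQm : CardLe (Ext M F) Q (oz m) := by
    refine cardLe_trans hMF.zf hQ (cardLe_subset hMF.zf hQ ?_) (cardLe_mono hsub hgd.2.2)
    exact hQC.trans (Col_mono (zero_le) (Order.le_succ m))
  obtain ⟨g', hg', hgE⟩ := hABS (Ext M F) Q K g m hMF hQ hQK (hsub _ hmM) (gd_mono hsub hgd) hQm
    (by rw [hQE]; exact hg)
  rw [hQE] at hgE
  obtain ⟨G', hG', hGE⟩ := lev_join hPL hMF (hsub _ hI.mem) hmκ1 hg' (by rw [hgE]; exact hh)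
  refine ⟨m, G', hmκ, hG', ?_⟩
  rw [hGE, hgE, hE]

/-- L4. -/
theorem st_L4 (hB2 : ST_B2.{u}) (hPL : ST_PL.{u}) (hABS : ST_ABS.{u}) : ST_L4.{u} := by
  rintro M W κ B F hM hI hB hF ⟨l, G, hl, hG, rfl⟩
  have hMF := st_KE M B F hM hB.1 hF
  have hsub : ∀ x ∈ M, x ∈ Ext M F := fun x hx => sub_ext hM hB.1 hF hx
  obtain ⟨m, hlm, hmκ, hBm, hgd⟩ := hB2 M κ hM.zf hM.wo hI B hB l hl
  have hmκ1 : m + 1 ≤ κ := Order.succ_le_of_lt hmκ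
  have hmM : oz m ∈ M := oz_mem_of_le hM.zf hI.mem hmκ.le
  have hlM : oz l ∈ M := oz_mem_of_le hM.zf hmM hlm.le
  have hC : Col l m ∈ M := Col_mem hM.zf hlM hmM
  obtain ⟨K, g, h', hK, hKg, hg, hh, hE⟩ := lev_split hPL hMF (hsub _ hI.mem) hlm.le hmκ1 hG
  have hQm : CardLe (Ext M F) (Col l m) (oz m) := by
    refine cardLe_trans hMF.zf (hsub _ hC) (cardLe_subset hMF.zf (hsub _ hC) ?_)
      (cardLe_mono hsub hgd.2.2)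
    exact Col_mono (zero_le) (Order.le_succ m)
  obtain ⟨g', hg', hgE⟩ := hABS (Ext M F) (Col l m) K g m hMF (hsub _ hC) hKg (hsub _ hmM)
    (gd_mono hsub hgd) hQm hg
  obtain ⟨g'', hg'', hgE'⟩ := hABS M B F g' m hM hB.1 hF hmM hgd hBm hg'
  obtain ⟨G', hG', hGE⟩ := lev_join hPL hM hI.mem hmκ1 hg'' (by rw [hgE', hgE]; exact hh)
  refine ⟨m, G', hmκ, hG', ?_⟩
  rw [hGE, hgE', hgE, hE]

end Pool.Agent.Helper22.GP
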